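import Pool.Agent.Helper11.SH.S3
import Pool.Agent.Helper96.SH.Sb

/-!
PROJECT SH / ALLQ (MP_274814_nt), block F2, F3 in abstract form: a family of holomorphic functions
`A t` of one automorphy over `X`, algebraic (up to a common factor) on a dense set, is algebraic at
the fixed point `x1` of `γ`.
-/

set_option autoImplicit false

namespace Pool.Agent.Helper16.SH

open Set

/-- functionals without common zero: `card ι` of them suffice -/
theorem pick {ι : Type} [Fintype ι] {T : Type*} (ψ : T → (ι → ℂ) →L[ℂ] ℂ)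
    (h : ∀ v, (∀ t, ψ t v = 0) → v = 0) :
    ∃ t : ι → T, ∀ v, (∀ i, ψ (t i) v = 0) → v = 0 := by
  classical
  obtain ⟨b, hb, hspan, hli⟩ := exists_linearIndependent ℂ (Set.range fun t => (ψ t).toLinearMap)
  have htop : Submodule.span ℂ (Set.range fun t => (ψ t).toLinearMap) = ⊤ := by
    by_contra hne
    obtain ⟨f, hf, hf0⟩ := Submodule.exists_le_ker_of_lt_top _ (lt_top_iff_ne_top.2 hne)
    obtain ⟨v, rfl⟩ := (Module.evalEquiv ℂ (ι → ℂ)).surjective f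
    apply hf
    have : v = 0 := h v fun t => by
      have := hf0 (Submodule.subset_span ⟨t, rfl⟩)
      simpa using this
    rw [this, map_zero]
  rw [htop] at hspan
  let B : Module.Basis b ℂ (Module.Dual ℂ (ι → ℂ)) := Module.Basis.mk hli (by
    rw [Subtype.range_coe, hspan])
  have hfin : Finite b := Module.Finite.finite_basis B
  have := Fintype.ofFinite b
  have hcard : Fintype.card ι = Fintype.card b := by
    rw [← Module.finrank_eq_card_basis B, Subspace.dual_finrank_eq,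
      Module.finrank_fintype_fun_eq_card]
  have e : ι ≃ b := Fintype.equivOfCardEq hcard
  have hch : ∀ i : ι, ∃ t : T, (ψ t).toLinearMap = (e i : Module.Dual ℂ (ι → ℂ)) :=
    fun i => hb (e i).2
  choose t ht using hch
  refine ⟨t, fun v hv => h v fun s => ?_⟩
  have h1 : ((Module.evalEquiv ℂ (ι → ℂ)) v : Module.Dual ℂ (Module.Dual ℂ (ι → ℂ))) = 0 := by
    refine B.ext fun i => ?_
    have h2 := hv (e.symm i)
    have h3 := ht (e.symm i)
    rw [e.apply_symm_apply] at h3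
    have h4 : B i = (i : Module.Dual ℂ (ι → ℂ)) := Module.Basis.mk_apply _ _ _
    rw [h4, ← h3]
    simpa using h2
  have h5 : v = 0 := (Module.evalEquiv ℂ (ι → ℂ)).map_eq_zero_iff.1 h1
  rw [h5, map_zero]

/-- two dense sets -/
theorem dense_aux {ι : Type} [Fintype ι] {X O : Set (ι → ℂ)} (hX : IsOpen X)
    (hXc : IsPreconnected X) (hO : X ⊆ closure O) (W : (ι → ℂ) → ℂ)
    (hW : DifferentiableOn ℂ W X) (h0 : ∃ x ∈ X, W x ≠ 0) :
    X ⊆ closure {x | x ∈ O ∧ x ∈ X ∧ W x ≠ 0} := by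
  classical
  intro x hx
  rw [mem_closure_iff]
  intro U hU hxU
  have han := Pool.Agent.Helper96.SH.analyticOnNhd_of_differentiableOn hX hW
  obtain ⟨y, hyU, hy0⟩ : ∃ y ∈ U ∩ X, W y ≠ 0 := by
    by_contra hcon
    push Not at hcon
    have h1 : W =ᶠ[nhds x] 0 := by
      filter_upwards [(hU.inter hX).mem_nhds ⟨hxU, hx⟩] with y hy
      exact hcon y hy
    obtain ⟨z, hz, hz0⟩ := h0
    exact hz0 (han.eqOn_zero_of_preconnected_of_eventuallyEq_zero hXc hx h1 hz)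
  have h2 : ContinuousAt W y := hW.continuousOn.continuousAt (hX.mem_nhds hyU.2)
  have h3 : U ∩ X ∩ {z | W z ≠ 0} ∈ nhds y :=
    Filter.inter_mem ((hU.inter hX).mem_nhds hyU) (h2.eventually_ne hy0)
  obtain ⟨z, hz, hzO⟩ := mem_closure_iff_nhds.1 (hO hyU.2) _ h3
  exact ⟨z, hz.1.1, hzO, hz.1.2, hz.2⟩

section

variable {ι : Type} [Fintype ι] {X : Set (ι → ℂ)} {T : Type*} (A : T → (ι → ℂ) → ℂ)
  (γ : (ι → ℂ) → (ι → ℂ)) (ρ : (ι → ℂ) → ℝ)

/-- the automorphy condition for the functions `A t`, `t ∈ S`, `A t ∘ γ` and `B` (of double weight) -/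
def Aut (X : Set (ι → ℂ)) (S : Finset T) (B : (ι → ℂ) → ℂ) : Prop :=
  ∃ D, IsCompact D ∧ D ⊆ X ∧ ∀ x ∈ X, ∃ y ∈ D, ∃ c c' : ℂ, ‖c‖ = ρ y / ρ x ∧
    ‖c'‖ = ρ (γ y) / ρ (γ x) ∧ (∀ t ∈ S, A t x = c * A t y ∧ A t (γ x) = c' * A t (γ y)) ∧
    B x = c ^ 2 * B y

theorem famB (hX : IsOpen X) (hXc : IsPreconnected X) (B : (ι → ℂ) → ℂ)
    (hA : ∀ t, DifferentiableOn ℂ (A t) X) (hB : DifferentiableOn ℂ B X)
    (hγ : MapsTo γ X X) (hγd : DifferentiableOn ℂ γ X) (x1 : ι → ℂ) (hx1 : x1 ∈ X)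
    (hγ1 : γ x1 = x1) (hγ' : ∀ v, fderiv ℂ γ x1 v = v → v = 0)
    (hρ : ContinuousOn ρ X) (hρ0 : ∀ x ∈ X, 0 < ρ x)
    (hc : ∀ S : Finset T, Aut A γ ρ X S B)
    (O : Set (ι → ℂ)) (hO : X ⊆ closure O)
    (hOA : ∀ x ∈ O, ∀ s t, A s x ≠ 0 → IsAlgebraic ℚ (A t x / A s x))
    (hOγ : ∀ x ∈ O, ∀ s t, A s (γ x) ≠ 0 → IsAlgebraic ℚ (A t (γ x) / A s (γ x)))
    (hOB : ∀ x ∈ O, ∀ s, A s x ≠ 0 → IsAlgebraic ℚ (B x / (A s x) ^ 2))
    (s0 : T) (hs0 : A s0 x1 ≠ 0)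
    (himm : ∀ v, (∀ t, fderiv ℂ (fun x => A t x / A s0 x) x1 v = 0) → v = 0) :
    IsAlgebraic ℚ (B x1 / (A s0 x1) ^ 2) := by
  classical
  obtain ⟨t, ht⟩ := pick (fun t => fderiv ℂ (fun x => A t x / A s0 x) x1) himm
  obtain ⟨D, hD, hDX, hDc⟩ := hc (insert s0 (Finset.univ.image t))
  have hAg : ∀ s, DifferentiableOn ℂ (fun x => A s (γ x)) X := fun s => (hA s).comp hγd hγ
  have hnx : X ∈ nhds x1 := hX.mem_nhds hx1
  have hAd : ∀ s, DifferentiableAt ℂ (A s) x1 := fun s => (hA s).differentiableAt hnx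
  have hγdx : DifferentiableAt ℂ γ x1 := hγd.differentiableAt hnx
  -- the functions
  set g : (ι → ℂ) → ι → ℂ := fun x i => A (t i) (γ x) / A s0 (γ x) - A (t i) x / A s0 x
    with hg
  set φ : (ι → ℂ) → ℂ := fun x => B x / (A s0 x) ^ 2 with hφ
  set W : (ι → ℂ) → ℂ := fun x => (A s0 x * A s0 (γ x)) ^ 2 with hW
  set F : Option ι → (ι → ℂ) → ℂ := fun o => o.elim (fun x => B x * (A s0 (γ x)) ^ 2)
    (fun i => fun x => A s0 x * A s0 (γ x) * (A (t i) (γ x) * A s0 x - A (t i) x * A s0 (γ x)))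
    with hF
  have hWd : DifferentiableOn ℂ W X := ((hA s0).mul (hAg s0)).pow 2
  have hFd : ∀ i, DifferentiableOn ℂ (F i) X := by
    intro o
    cases o with
    | none => exact hB.mul ((hAg s0).pow 2)
    | some i => exact ((hA s0).mul (hAg s0)).mul (((hAg _).mul (hA s0)).sub ((hA _).mul (hAg s0)))
  have hρc : ContinuousOn (fun x => (ρ x * ρ (γ x)) ^ 2) X :=
    (hρ.mul (hρ.comp hγd.continuousOn hγ)).pow 2
  have hρc0 : ∀ x ∈ X, 0 < (ρ x * ρ (γ x)) ^ 2 := fun x hx =>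
    pow_pos (mul_pos (hρ0 x hx) (hρ0 _ (hγ hx))) 2
  have hFc : ∀ x ∈ X, ∃ y ∈ D, ∃ j : ℂ, W x = j * W y ∧ (∀ i, F i x = j * F i y) ∧
      ‖j‖ * (ρ x * ρ (γ x)) ^ 2 ≤ (ρ y * ρ (γ y)) ^ 2 := by
    intro x hx
    obtain ⟨y, hy, c, c', h1, h2, h3, h4⟩ := hDc x hx
    obtain ⟨h5, h6⟩ := h3 s0 (Finset.mem_insert_self _ _)
    refine ⟨y, hy, c ^ 2 * c' ^ 2, ?_, ?_, ?_⟩
    · rw [hW]
      simp only
      rw [h5, h6]
      ring
    · intro o
      cases o with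
      | none =>
        simp only [hF, Option.elim_none]
        rw [h4, h6]
        ring
      | some i =>
        obtain ⟨h7, h8⟩ := h3 (t i)
          (Finset.mem_insert_of_mem (Finset.mem_image_of_mem _ (Finset.mem_univ i)))
        simp only [hF, Option.elim_some]
        rw [h5, h6, h7, h8]
        ring
    · have h7 := hρ0 x hx
      have h8 := hρ0 _ (hγ hx)
      rw [norm_mul, norm_pow, norm_pow, h1, h2]
      apply le_of_eq
      field_simp
  have hW1 : W x1 ≠ 0 := by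
    rw [hW]
    simp only
    rw [hγ1]
    exact pow_ne_zero 2 (mul_ne_zero hs0 hs0)
  have hFW : ∀ x, A s0 x ≠ 0 → A s0 (γ x) ≠ 0 → ∀ o, F o x / W x =
      (o.elim (φ x) (g x) : ℂ) := by
    intro x h3 h4 o
    cases o with
    | none =>
      simp only [hF, hφ, hW, Option.elim_none]
      field_simp
    | some i =>
      simp only [hF, hg, hW, Option.elim_some]
      field_simp
  have hWne : ∀ x, W x ≠ 0 → A s0 x ≠ 0 ∧ A s0 (γ x) ≠ 0 := by
    intro x h0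
    rw [hW] at h0
    exact ⟨fun h => h0 (by simp [h]), fun h => h0 (by simp [h])⟩
  have hOF : X ⊆ closure {x | x ∈ X ∧ W x ≠ 0 ∧ ∀ k, IsAlgebraic ℚ (F k x / W x)} := by
    refine (dense_aux hX hXc hO W hWd ⟨x1, hx1, hW1⟩).trans (closure_mono ?_)
    rintro x ⟨hxO, hxX, hx0⟩
    obtain ⟨h1, h2⟩ := hWne x hx0
    refine ⟨hxX, hx0, fun o => ?_⟩
    rw [hFW x h1 h2]
    cases o with
    | none => exact hOB x hxO s0 h1
    | some i => exact (hOγ x hxO s0 _ h2).sub (hOA x hxO s0 _ h1)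
  obtain ⟨Q, hQ, hQa, hQX⟩ := Pool.Agent.Helper11.SH.siegel_alg (κ := Option ι)
    (by rw [Fintype.card_option]) hX hWd hFd hρc hρc0 hD hDX hFc hOF
  have hosA : ∀ s, AnalyticAt ℂ (A s) x1 := fun s =>
    Pool.Agent.Helper96.SH.analyticOnNhd_of_differentiableOn hX (hA s) x1 hx1
  have hosAg : ∀ s, AnalyticAt ℂ (fun x => A s (γ x)) x1 := fun s =>
    Pool.Agent.Helper96.SH.analyticOnNhd_of_differentiableOn hX (hAg s) x1 hx1
  have hg0 : A s0 (γ x1) ≠ 0 := by rw [hγ1]; exact hs0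
  have hgan : ∀ i, AnalyticAt ℂ (fun x => g x i) x1 := fun i =>
    ((hosAg _).div (hosAg s0) hg0).sub ((hosA _).div (hosA s0) hs0)
  have hφan : ContinuousAt φ x1 :=
    (hB.differentiableAt hnx).continuousAt.div ((hosA s0).pow 2).continuousAt (pow_ne_zero 2 hs0)
  have hgs : HasStrictFDerivAt g (fderiv ℂ g x1) x1 :=
    (AnalyticAt.pi hgan).hasStrictFDerivAt
  have hgd : ∀ i v, fderiv ℂ g x1 v i =
      fderiv ℂ (fun x => A (t i) x / A s0 x) x1 (fderiv ℂ γ x1 v - v) := by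
    intro i v
    have hq : DifferentiableAt ℂ (fun x => A (t i) x / A s0 x) x1 :=
      ((hosA _).div (hosA s0) hs0).differentiableAt
    have hq' : DifferentiableAt ℂ (fun x => A (t i) x / A s0 x) (γ x1) := by rw [hγ1]; exact hq
    have h1 : HasFDerivAt (fun x => g x i)
        ((fderiv ℂ (fun x => A (t i) x / A s0 x) x1).comp (fderiv ℂ γ x1) -
        fderiv ℂ (fun x => A (t i) x / A s0 x) x1) x1 := by
      have h2 := hq'.hasFDerivAt.comp x1 hγdx.hasFDerivAt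
      rw [hγ1] at h2
      exact h2.sub hq.hasFDerivAt
    have h3 : HasFDerivAt (fun x => g x i)
        ((ContinuousLinearMap.proj i).comp (fderiv ℂ g x1)) x1 :=
      (hasFDerivAt_pi'.1 hgs.hasFDerivAt) i
    have h4 := congrArg (fun L => L v) (h3.unique h1)
    simpa using h4
  have hker : LinearMap.ker ((fderiv ℂ g x1).toLinearMap) = ⊥ := by
    rw [LinearMap.ker_eq_bot']
    intro v hv
    have h1 : fderiv ℂ γ x1 v - v = 0 := ht _ fun i => by
      rw [← hgd]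
      have : fderiv ℂ g x1 v = 0 := hv
      rw [this]
      rfl
    exact hγ' v (sub_eq_zero.1 h1)
  set e : (ι → ℂ) ≃L[ℂ] (ι → ℂ) :=
    (LinearEquiv.ofInjectiveEndo _ (LinearMap.ker_eq_bot.1 hker)).toContinuousLinearEquiv with he
  have hee : (e : (ι → ℂ) →L[ℂ] (ι → ℂ)) = fderiv ℂ g x1 := by
    ext v
    rfl
  refine Pool.Agent.Helper11.SH.eval_alg g e x1 (by rw [hee]; exact hgs) ?_ φ hφan Q hQ hQa ?_
  · funext i
    simp [hg, hγ1]
  · have h1 : ∀ᶠ x in nhds x1, A s0 x ≠ 0 := (hAd s0).continuousAt.eventually_ne hs0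
    have h2 : ∀ᶠ x in nhds x1, A s0 (γ x) ≠ 0 := (hosAg s0).continuousAt.eventually_ne hg0
    filter_upwards [h1, h2, hnx] with x h3 h4 h5
    have h6 : W x ≠ 0 := pow_ne_zero 2 (mul_ne_zero h3 h4)
    have h7 := hQX x h5 h6
    have h8 : (fun k => F k x / W x) = fun o : Option ι => (o.elim (φ x) (g x) : ℂ) := by
      funext o
      exact hFW x h3 h4 o
    rwa [h8] at h7

/-- **Family evaluation theorem** (block F2, F3). -/
theorem fam (hX : IsOpen X) (hXc : IsPreconnected X) (B : (ι → ℂ) → ℂ)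
    (hA : ∀ t, DifferentiableOn ℂ (A t) X) (hB : DifferentiableOn ℂ B X)
    (hγ : MapsTo γ X X) (hγd : DifferentiableOn ℂ γ X) (x1 : ι → ℂ) (hx1 : x1 ∈ X)
    (hγ1 : γ x1 = x1) (hγ' : ∀ v, fderiv ℂ γ x1 v = v → v = 0)
    (hρ : ContinuousOn ρ X) (hρ0 : ∀ x ∈ X, 0 < ρ x)
    (hc : ∀ S : Finset T, Aut A γ ρ X S B)
    (O : Set (ι → ℂ)) (hO : X ⊆ closure O)
    (hOA : ∀ x ∈ O, ∀ s t, A s x ≠ 0 → IsAlgebraic ℚ (A t x / A s x))
    (hOγ : ∀ x ∈ O, ∀ s t, A s (γ x) ≠ 0 → IsAlgebraic ℚ (A t (γ x) / A s (γ x)))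
    (hOB : ∀ x ∈ O, ∀ s, A s x ≠ 0 → IsAlgebraic ℚ (B x / (A s x) ^ 2))
    (s0 : T) (hs0 : A s0 x1 ≠ 0)
    (himm : ∀ v, (∀ t, fderiv ℂ (fun x => A t x / A s0 x) x1 v = 0) → v = 0) :
    (∀ t, IsAlgebraic ℚ (A t x1 / A s0 x1)) ∧ IsAlgebraic ℚ (B x1 / (A s0 x1) ^ 2) := by
  classical
  refine ⟨fun t => ?_, famB A γ ρ hX hXc B hA hB hγ hγd x1 hx1 hγ1 hγ' hρ hρ0 hc O hO hOA hOγ
    hOB s0 hs0 himm⟩
  have h1 := famB A γ ρ hX hXc (fun x => A t x * A s0 x) hA ((hA t).mul (hA s0)) hγ hγd x1 hx1 hγ1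
    hγ' hρ hρ0 (fun S => by
      obtain ⟨D, hD, hDX, hDc⟩ := hc (insert t (insert s0 S))
      refine ⟨D, hD, hDX, fun x hx => ?_⟩
      obtain ⟨y, hy, c, c', h1, h2, h3, h4⟩ := hDc x hx
      refine ⟨y, hy, c, c', h1, h2, fun s hs => h3 s (by simp [hs]), ?_⟩
      simp only
      rw [(h3 t (by simp)).1, (h3 s0 (by simp)).1]
      ring) O hO hOA hOγ (fun x hx s hs => by
      have h2 : A t x * A s0 x / (A s x) ^ 2 = (A t x / A s x) * (A s0 x / A s x) := by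
        field_simp
      rw [h2]
      exact (hOA x hx s t hs).mul (hOA x hx s s0 hs)) s0 hs0 himm
  have h2 : A t x1 * A s0 x1 / (A s0 x1) ^ 2 = A t x1 / A s0 x1 := by
    field_simp
  rwa [h2] at h1

end

end Pool.Agent.Helper16.SH
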