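import Pool.Agent.Helper96.SH.Ca

/-!
PROJECT SH / ALLQ (MP_274814_nt), block F: a holomorphic family of theta functions on `C^ι` for the
lattice `Z^ι`, the form `E` and the semicharacter `ep`; definitions.
-/

set_option autoImplicit false

namespace Pool.Agent.Helper16.SH

open Complex Set Pool.Agent.Helper96.SH
open scoped Real

noncomputable section

variable {ι ν : Type} [Fintype ι] [Fintype ν]

/-- the form -/
def En (E : Matrix ι ι ℤ) (w w' : ι → ℂ) : ℂ := bl (fun i j => (E i j : ℂ)) w w'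

/-- rational vectors as complex vectors -/
def cQ (t : ι → ℚ) : ι → ℂ := fun i => (t i : ℂ)

/-- integer matrix times vector -/
def mI (M : Matrix ι ι ℤ) (w : ι → ℂ) : ι → ℂ := mv (fun i j => (M i j : ℂ)) w

/-- rational matrix times vector -/
def mQ (M : Matrix ι ι ℚ) (w : ι → ℂ) : ι → ℂ := mv (fun i j => (M i j : ℂ)) w

/-- multipliers of the lattice `Z^ι` -/
def QPer (E : Matrix ι ι ℤ) (ep : (ι → ℤ) → ℂ) (h : (ι → ℂ) → ℂ) : Prop :=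
  ∀ (l : ι → ℤ) (w : ι → ℂ), h (w + cI l) = ep l * cexp (-(π * I * En E (cI l) w)) * h w

/-- `∇_e h = 0` for `e ∈ N` -/
def NPer (E : Matrix ι ι ℤ) (N : Submodule ℂ (ι → ℂ)) (h : (ι → ℂ) → ℂ) : Prop :=
  ∀ e ∈ N, ∀ w : ι → ℂ, h (w + e) = cexp (π * I * En E e w) * h w

/-- `∇_e h` -/
def nab (E : Matrix ι ι ℤ) (h : (ι → ℂ) → ℂ) (e w : ι → ℂ) : ℂ :=
  fderiv ℂ h w e - π * I * En E e w * h w

/-- `det (∇_{e_i} h (t_j))` -/
def Dt (E : Matrix ι ι ℤ) (h : (ι → ℂ) → ℂ) (e1 e2 t1 t2 : ι → ℂ) : ℂ :=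
  nab E h e1 t1 * nab E h e2 t2 - nab E h e1 t2 * nab E h e2 t1

/-- holomorphic family of theta functions -/
structure TFam (E : Matrix ι ι ℤ) (ep : (ι → ℤ) → ℂ) (X : Set (ν → ℂ))
    (N : (ν → ℂ) → Submodule ℂ (ι → ℂ)) (G : (ν → ℂ) → (ι → ℂ) → ℂ) : Prop where
  op : IsOpen X
  conn : IsPreconnected X
  alt : ∀ i j, E i j = -E j i
  ep1 : ∀ l, ‖ep l‖ = 1
  ep2 : ∀ l l' : ι → ℤ, (∀ i, (2 : ℤ) ∣ l i - l' i) → ep l = ep l'
  hol : DifferentiableOn ℂ (fun z : (ν → ℂ) × (ι → ℂ) => G z.1 z.2) (X ×ˢ univ)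
  ne : ∀ x ∈ X, ∃ w, G x w ≠ 0
  qp : ∀ x ∈ X, QPer E ep (G x)
  np : ∀ x ∈ X, NPer E (N x) (G x)
  uniq : ∀ x ∈ X, ∀ h : (ι → ℂ) → ℂ, Differentiable ℂ h → QPer E ep h → NPer E (N x) h →
    ∃ c : ℂ, ∀ w, h w = c * G x w

/-- `M` is an integral isometry, `≡ 1 mod n`, it maps `N` onto `N'` -/
structure IsoI (E : Matrix ι ι ℤ) (n : ℕ) (N N' : Submodule ℂ (ι → ℂ)) [DecidableEq ι]
    (M M' : Matrix ι ι ℤ) : Prop where
  inv : M * M' = 1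
  iso : ∀ w w', En E (mI M w) (mI M w') = En E w w'
  cong : ∀ i j, (n : ℤ) ∣ M i j - (1 : Matrix ι ι ℤ) i j
  map : ∀ e, e ∈ N ↔ mI M e ∈ N'

/-- compactness modulo the isometries `≡ 1 mod n` of determinant `1` on the plane `⟨e1, e2⟩` -/
def Cpt (E : Matrix ι ι ℤ) (X : Set (ν → ℂ)) (N : (ν → ℂ) → Submodule ℂ (ι → ℂ))
    [DecidableEq ι] (e1 e2 : ι → ℂ) : Prop :=
  ∀ n : ℕ, 1 ≤ n → ∃ D, IsCompact D ∧ D ⊆ X ∧ ∀ x ∈ X, ∃ y ∈ D, ∃ M M' : Matrix ι ι ℤ,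
    IsoI E n (N y) (N x) M M' ∧ ∃ a b c d : ℂ, a * d - b * c = 1 ∧
      e1 = a • mI M e1 + b • mI M e2 ∧ e2 = c • mI M e1 + d • mI M e2

end

end Pool.Agent.Helper16.SH
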