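import Pool.Agent.Helper16.SH.Fa
import Pool.Agent.Helper16.SH.Fd
import Pool.Agent.Helper96.SH.Cc

/-!
PROJECT SH / ALLQ (MP_274814_nt), block F: the family theorem.
-/

set_option autoImplicit false
set_option linter.unusedSectionVars false

namespace Pool.Agent.Helper16.SH

open Complex Set Pool.Agent.Helper96.SH Filter
open scoped Real Topology

noncomputable section

variable {ι ν : Type} [Fintype ι] [Fintype ν]

/-! ### algebra -/

theorem bl_smul_left (Z : Matrix ι ι ℂ) (a : ℂ) (x y : ι → ℂ) : bl Z (a • x) y = a * bl Z x y := by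
  simp only [bl, Pi.smul_apply, smul_eq_mul, Finset.mul_sum]
  exact Finset.sum_congr rfl fun i _ => Finset.sum_congr rfl fun j _ => by ring

theorem bl_smul_right (Z : Matrix ι ι ℂ) (a : ℂ) (x y : ι → ℂ) : bl Z x (a • y) = a * bl Z x y := by
  simp only [bl, Pi.smul_apply, smul_eq_mul, Finset.mul_sum]
  exact Finset.sum_congr rfl fun i _ => Finset.sum_congr rfl fun j _ => by ring

theorem En_add_left (E : Matrix ι ι ℤ) (x x' y : ι → ℂ) : En E (x + x') y = En E x y + En E x' y :=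
  bl_add_left _ _ _ _

theorem En_add_right (E : Matrix ι ι ℤ) (x y y' : ι → ℂ) :
    En E x (y + y') = En E x y + En E x y' := bl_add_right _ _ _ _

theorem En_smul_left (E : Matrix ι ι ℤ) (a : ℂ) (x y : ι → ℂ) : En E (a • x) y = a * En E x y :=
  bl_smul_left _ _ _ _

theorem En_smul_right (E : Matrix ι ι ℤ) (a : ℂ) (x y : ι → ℂ) : En E x (a • y) = a * En E x y :=
  bl_smul_right _ _ _ _

theorem En_alt {E : Matrix ι ι ℤ} (hE : ∀ i j, E i j = -E j i) (x y : ι → ℂ) :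
    En E x y = -En E y x := by
  simp only [En, bl]
  rw [Finset.sum_comm, ← Finset.sum_neg_distrib]
  refine Finset.sum_congr rfl fun i _ => ?_
  rw [← Finset.sum_neg_distrib]
  refine Finset.sum_congr rfl fun j _ => ?_
  rw [hE j i]
  push_cast
  ring

theorem En_self {E : Matrix ι ι ℤ} (hE : ∀ i j, E i j = -E j i) (x : ι → ℂ) : En E x x = 0 := by
  have := En_alt hE x x
  linear_combination this / 2

/-- the form as a continuous linear map in the second variable -/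
def EnR (E : Matrix ι ι ℤ) (x : ι → ℂ) : (ι → ℂ) →L[ℂ] ℂ :=
  LinearMap.toContinuousLinearMap
    { toFun := fun y => En E x y
      map_add' := En_add_right E x
      map_smul' := fun a y => En_smul_right E a x y }

@[simp] theorem EnR_apply (E : Matrix ι ι ℤ) (x y : ι → ℂ) : EnR E x y = En E x y := rfl

theorem En_real (E : Matrix ι ι ℤ) (x y : ι → ℝ) : ∃ r : ℝ, En E (cR x) (cR y) = r :=
  ⟨∑ i, ∑ j, x i * (E i j : ℝ) * y j, by simp [En, bl, cR]⟩

omit [Fintype ι] in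
theorem cI_eq_cR (l : ι → ℤ) : cI l = cR fun i => (l i : ℝ) := by
  funext i
  simp [cI, cR]

/-- the linear map of an integer matrix -/
def LI (M : Matrix ι ι ℤ) : (ι → ℂ) →L[ℂ] (ι → ℂ) :=
  LinearMap.toContinuousLinearMap
    { toFun := fun w => mI M w
      map_add' := mv_add _
      map_smul' := fun a w => by
        funext i
        simp only [mI, mv, Pi.smul_apply, smul_eq_mul, RingHom.id_apply, Finset.mul_sum]
        exact Finset.sum_congr rfl fun j _ => by ring }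

@[simp] theorem LI_apply (M : Matrix ι ι ℤ) (w : ι → ℂ) : LI M w = mI M w := rfl

theorem mI_add (M : Matrix ι ι ℤ) (w w' : ι → ℂ) : mI M (w + w') = mI M w + mI M w' :=
  (LI M).map_add w w'

theorem mI_smul (M : Matrix ι ι ℤ) (a : ℂ) (w : ι → ℂ) : mI M (a • w) = a • mI M w :=
  (LI M).map_smul a w

theorem mI_mul (M M' : Matrix ι ι ℤ) (w : ι → ℂ) : mI (M * M') w = mI M (mI M' w) := by
  funext i
  simp only [mI, mv, Matrix.mul_apply, Finset.mul_sum]
  push_cast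
  simp only [Finset.sum_mul]
  rw [Finset.sum_comm]
  exact Finset.sum_congr rfl fun j _ => Finset.sum_congr rfl fun k _ => by ring

theorem mI_one [DecidableEq ι] (w : ι → ℂ) : mI (1 : Matrix ι ι ℤ) w = w := by
  funext i
  simp only [mI, mv]
  have : ∀ j, (((1 : Matrix ι ι ℤ) i j : ℤ) : ℂ) = if i = j then 1 else 0 := by
    intro j
    rw [Matrix.one_apply]
    split_ifs <;> simp
  simp [this]

theorem mI_cI (M : Matrix ι ι ℤ) (l : ι → ℤ) : mI M (cI l) = cI (M.mulVec l) := by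
  funext i
  simp [mI, mv, cI, Matrix.mulVec, dotProduct]

theorem mI_cR (M : Matrix ι ι ℤ) (w : ι → ℝ) :
    mI M (cR w) = cR (fun i => ∑ j, (M i j : ℝ) * w j) := by
  funext i
  simp [mI, mv, cR]

theorem mQ_mul (M M' : Matrix ι ι ℚ) (w : ι → ℂ) : mQ (M * M') w = mQ M (mQ M' w) := by
  funext i
  simp only [mQ, mv, Matrix.mul_apply, Finset.mul_sum]
  push_cast
  simp only [Finset.sum_mul]
  rw [Finset.sum_comm]
  exact Finset.sum_congr rfl fun j _ => Finset.sum_congr rfl fun k _ => by ring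

theorem mQ_one [DecidableEq ι] (w : ι → ℂ) : mQ (1 : Matrix ι ι ℚ) w = w := by
  funext i
  simp only [mQ, mv]
  have : ∀ j, (((1 : Matrix ι ι ℚ) i j : ℚ) : ℂ) = if i = j then 1 else 0 := by
    intro j
    rw [Matrix.one_apply]
    split_ifs <;> simp
  simp [this]

theorem mQ_int (M : Matrix ι ι ℤ) (w : ι → ℂ) : mQ (M.map (fun a : ℤ => (a : ℚ))) w = mI M w := by
  funext i
  simp [mI, mQ, mv]

/-! ### isometries and uniqueness -/

theorem QPer.zero {E : Matrix ι ι ℤ} {ep : (ι → ℤ) → ℂ} {h : (ι → ℂ) → ℂ} (hh : QPer E ep h)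
    (hne : ∃ w, h w ≠ 0) : ep 0 = 1 := by
  obtain ⟨w, hw⟩ := hne
  have h1 := hh 0 w
  have h2 : cI (0 : ι → ℤ) = 0 := by
    funext i
    simp [cI]
  have h3 : En E (0 : ι → ℂ) w = 0 := by simp [En, bl]
  rw [h2, add_zero, h3, mul_zero, neg_zero, Complex.exp_zero, mul_one] at h1
  exact mul_right_cancel₀ hw (by rw [← h1, one_mul])

section
variable [DecidableEq ι]

theorem IsoI.inv' {E : Matrix ι ι ℤ} {n : ℕ} {N N' : Submodule ℂ (ι → ℂ)} {M M' : Matrix ι ι ℤ}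
    (h : IsoI E n N N' M M') : M' * M = 1 := mul_eq_one_comm.1 h.inv

theorem TFam.iso {E : Matrix ι ι ℤ} {ep : (ι → ℤ) → ℂ} {X : Set (ν → ℂ)}
    {N : (ν → ℂ) → Submodule ℂ (ι → ℂ)} {G : (ν → ℂ) → (ι → ℂ) → ℂ} (hT : TFam E ep X N G)
    (hG : ∀ x ∈ X, Differentiable ℂ (G x)) {x y : ν → ℂ} (hx : x ∈ X) (hy : y ∈ X)
    {n : ℕ} (hn : 2 ∣ n) {M M' : Matrix ι ι ℤ} (hM : IsoI E n (N y) (N x) M M') :
    ∃ c : ℂ, c ≠ 0 ∧ ∀ w, G x (mI M w) = c * G y w := by
  have h1 : Differentiable ℂ fun w => G x (mI M w) := (hG x hx).comp (LI M).differentiable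
  have h2 : QPer E ep fun w => G x (mI M w) := by
    intro l w
    simp only
    rw [mI_add, mI_cI, hT.qp x hx, ← mI_cI, hM.iso]
    congr 2
    refine hT.ep2 _ _ fun i => ?_
    have h3 : (M.mulVec l) i - l i = ∑ j, (M i j - (1 : Matrix ι ι ℤ) i j) * l j := by
      simp only [sub_mul, Finset.sum_sub_distrib, Matrix.mulVec, dotProduct, Matrix.one_apply]
      simp
    rw [h3]
    refine Finset.dvd_sum fun j _ => Dvd.dvd.mul_right ?_ _
    exact (Int.natCast_dvd_natCast.2 hn).trans (hM.cong i j)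
  have h3 : NPer E (N y) fun w => G x (mI M w) := by
    intro e he w
    simp only
    rw [mI_add, hT.np x hx _ ((hM.map e).1 he), hM.iso]
  obtain ⟨c, hc⟩ := hT.uniq y hy _ h1 h2 h3
  refine ⟨c, ?_, hc⟩
  rintro rfl
  obtain ⟨w, hw⟩ := hT.ne x hx
  apply hw
  have h4 := hc (mI M' w)
  rw [← mI_mul, hM.inv, mI_one, zero_mul] at h4
  exact h4

theorem TFam.entire {E : Matrix ι ι ℤ} {ep : (ι → ℤ) → ℂ} {X : Set (ν → ℂ)}
    {N : (ν → ℂ) → Submodule ℂ (ι → ℂ)} {G : (ν → ℂ) → (ι → ℂ) → ℂ} (hT : TFam E ep X N G)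
    (x : ν → ℂ) (hx : x ∈ X) : Differentiable ℂ (G x) := by
  intro w
  have h1 : DifferentiableAt ℂ (fun z : (ν → ℂ) × (ι → ℂ) => G z.1 z.2) (x, w) :=
    hT.hol.differentiableAt ((hT.op.prod isOpen_univ).mem_nhds ⟨hx, mem_univ _⟩)
  exact h1.comp (f := fun w => (x, w)) w (by fun_prop)

end

/-! ### rational points -/

/-- an entire function which vanishes at all rational points is zero -/
theorem rat_zero {h : (ι → ℂ) → ℂ} (hd : Differentiable ℂ h) (h0 : ∀ t : ι → ℚ, h (cQ t) = 0) :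
    ∀ w, h w = 0 := by
  have hR : ∀ x : ι → ℝ, h (cR x) = 0 := by
    have hdense : DenseRange (fun t : ι → ℚ => fun i => (t i : ℝ)) :=
      DenseRange.piMap fun _ => Rat.denseRange_cast
    have hcl : IsClosed {x : ι → ℝ | h (cR x) = 0} := by
      refine isClosed_eq ?_ continuous_const
      refine hd.continuous.comp ?_
      unfold cR
      fun_prop
    intro x
    refine hdense.induction_on (p := fun x => h (cR x) = 0) x hcl fun t => ?_
    have := h0 t
    convert this using 2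
    funext i
    simp [cR, cQ]
  intro w
  set φ : ℂ → ℂ := fun s => h (cR (fun i => (w i).re) + s • cR (fun i => (w i).im)) with hφ
  have hφd : Differentiable ℂ φ := hd.comp (by fun_prop)
  have hφR : ∀ s : ℝ, φ s = 0 := by
    intro s
    have := hR (fun i => (w i).re + s * (w i).im)
    rw [hφ]
    convert this using 2
    funext i
    simp [cR]
  have hφ0 : φ = 0 := by
    have han : AnalyticOnNhd ℂ φ univ := fun z _ => hφd.analyticAt z
    refine han.eq_of_frequently_eq (z₀ := 0) (fun z _ => analyticAt_const) ?_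
    rw [frequently_nhdsWithin_iff]
    rw [Filter.frequently_iff]
    intro U hU
    rw [Metric.mem_nhds_iff] at hU
    obtain ⟨ε, hε, hU⟩ := hU
    refine ⟨((ε / 2 : ℝ) : ℂ), hU ?_, ?_, ?_⟩
    · rw [mem_ball_zero_iff, Complex.norm_real, Real.norm_of_nonneg (by positivity)]
      linarith
    · simpa using hφR (ε / 2)
    · simp only [mem_compl_iff, mem_singleton_iff]
      exact_mod_cast (by positivity : (ε / 2 : ℝ) ≠ 0)
  have h1 := congrFun hφ0 I
  have h2 : cR (fun i => (w i).re) + I • cR (fun i => (w i).im) = w := by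
    funext i
    simp only [cR, Pi.add_apply, Pi.smul_apply, smul_eq_mul]
    rw [mul_comm, Complex.re_add_im]
  rw [hφ] at h1
  simp only [h2] at h1
  exact h1

/-! ### the norm -/

/-- supremum over the real points -/
def Mx (h : (ι → ℂ) → ℂ) : ℝ := sSup ((fun w : ι → ℝ => ‖h (cR w)‖) '' Icc 0 1)

theorem cR_cont : Continuous (fun x : ι → ℝ => cR x) := by
  unfold cR
  fun_prop

theorem Mx_bdd {h : (ι → ℂ) → ℂ} (hd : Differentiable ℂ h) :
    BddAbove ((fun w : ι → ℝ => ‖h (cR w)‖) '' Icc 0 1) :=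
  (isCompact_Icc.image (hd.continuous.comp cR_cont).norm).bddAbove

theorem QPer.norm_add {E : Matrix ι ι ℤ} {ep : (ι → ℤ) → ℂ} {h : (ι → ℂ) → ℂ} (hh : QPer E ep h)
    (hep : ∀ l, ‖ep l‖ = 1) (l : ι → ℤ) (w : ι → ℝ) : ‖h (cR w + cI l)‖ = ‖h (cR w)‖ := by
  obtain ⟨r, hr⟩ := En_real E (fun i => (l i : ℝ)) w
  rw [hh, norm_mul, norm_mul, hep, one_mul, cI_eq_cR, hr]
  have : -(π * I * (r : ℂ)) = ((-(π * r) : ℝ) : ℂ) * I := by
    push_cast
    ring
  rw [this, Complex.norm_exp_ofReal_mul_I, one_mul]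

theorem le_Mx {E : Matrix ι ι ℤ} {ep : (ι → ℤ) → ℂ} {h : (ι → ℂ) → ℂ} (hd : Differentiable ℂ h)
    (hh : QPer E ep h) (hep : ∀ l, ‖ep l‖ = 1) (w : ι → ℝ) : ‖h (cR w)‖ ≤ Mx h := by
  have h1 : cR w = cR (fun i => Int.fract (w i)) + cI (fun i => ⌊w i⌋) := by
    funext i
    simp only [cR, cI, Pi.add_apply]
    rw [← Complex.ofReal_intCast, ← Complex.ofReal_add, Int.fract_add_floor]
  rw [h1, hh.norm_add hep]
  exact le_csSup (Mx_bdd hd) ⟨_, ⟨fun i => Int.fract_nonneg _, fun i => (Int.fract_lt_one _).le⟩, rfl⟩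

theorem Mx_le {h : (ι → ℂ) → ℂ} {B : ℝ} (hB : ∀ w : ι → ℝ, ‖h (cR w)‖ ≤ B) : Mx h ≤ B := by
  refine csSup_le ?_ ?_
  · exact ⟨_, 0, ⟨le_rfl, fun _ => zero_le_one⟩, rfl⟩
  · rintro _ ⟨w, -, rfl⟩
    exact hB w

theorem Mx_pos {E : Matrix ι ι ℤ} {ep : (ι → ℤ) → ℂ} {h : (ι → ℂ) → ℂ} (hd : Differentiable ℂ h)
    (hh : QPer E ep h) (hep : ∀ l, ‖ep l‖ = 1) (hne : ∃ w, h w ≠ 0) : 0 < Mx h := by
  obtain ⟨t, ht⟩ : ∃ t : ι → ℚ, h (cQ t) ≠ 0 := by
    by_contra hcon
    push Not at hcon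
    obtain ⟨w, hw⟩ := hne
    exact hw (rat_zero hd hcon w)
  have h1 : cQ t = cR (fun i => (t i : ℝ)) := by
    funext i
    simp [cQ, cR]
  rw [h1] at ht
  exact lt_of_lt_of_le (norm_pos_iff.2 ht) (le_Mx hd hh hep _)

theorem Mx_iso {E : Matrix ι ι ℤ} {ep : (ι → ℤ) → ℂ} {h h' : (ι → ℂ) → ℂ} (hd : Differentiable ℂ h)
    (hd' : Differentiable ℂ h') (hh : QPer E ep h) (hh' : QPer E ep h') (hep : ∀ l, ‖ep l‖ = 1)
    [DecidableEq ι] {M M' : Matrix ι ι ℤ} (hM : M * M' = 1) {c : ℂ}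
    (hc : ∀ w, h' (mI M w) = c * h w) : Mx h' = ‖c‖ * Mx h := by
  apply le_antisymm
  · refine Mx_le fun w => ?_
    have h1 := hc (mI M' (cR w))
    rw [← mI_mul, hM, mI_one] at h1
    rw [h1, norm_mul, mI_cR]
    exact mul_le_mul_of_nonneg_left (le_Mx hd hh hep _) (norm_nonneg _)
  · by_cases hc0 : c = 0
    · rw [hc0, norm_zero, zero_mul]
      exact (norm_nonneg _).trans (le_Mx hd' hh' hep 0)
    · rw [← le_div_iff₀' (norm_pos_iff.2 hc0)]
      refine Mx_le fun w => ?_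
      rw [le_div_iff₀' (norm_pos_iff.2 hc0), ← norm_mul, ← hc, mI_cR]
      exact le_Mx hd' hh' hep _

theorem Mx_cont {E : Matrix ι ι ℤ} {ep : (ι → ℤ) → ℂ} {X : Set (ν → ℂ)}
    {N : (ν → ℂ) → Submodule ℂ (ι → ℂ)} {G : (ν → ℂ) → (ι → ℂ) → ℂ} (hT : TFam E ep X N G) :
    ContinuousOn (fun x => Mx (G x)) X := by
  rw [continuousOn_iff_continuous_domRestrict]
  have h1 : Continuous (Function.uncurry fun (x : X) (w : ι → ℝ) => ‖G x (cR w)‖) := by
    have h2 : Continuous fun p : X × (ι → ℝ) => ((p.1 : ν → ℂ), cR p.2) :=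
      (continuous_subtype_val.comp continuous_fst).prodMk (cR_cont.comp continuous_snd)
    have h3 := hT.hol.continuousOn.comp_continuous h2 fun p => ⟨p.1.2, mem_univ _⟩
    exact h3.norm
  exact isCompact_Icc.continuous_sSup h1
/-! ### covariant derivatives -/

theorem nab_add (E : Matrix ι ι ℤ) (h : (ι → ℂ) → ℂ) (a b : ℂ) (e1 e2 w : ι → ℂ) :
    nab E h (a • e1 + b • e2) w = a * nab E h e1 w + b * nab E h e2 w := by
  simp only [nab, map_add, map_smul, En_add_left, En_smul_left, smul_eq_mul]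
  ring

theorem nab_map {E : Matrix ι ι ℤ} {h h' : (ι → ℂ) → ℂ} (hd : Differentiable ℂ h)
    (hd' : Differentiable ℂ h') {M : Matrix ι ι ℤ}
    (hM : ∀ w w', En E (mI M w) (mI M w') = En E w w') {c : ℂ}
    (hc : ∀ w, h' (mI M w) = c * h w) (e w : ι → ℂ) :
    nab E h' (mI M e) (mI M w) = c * nab E h e w := by
  have h1 : HasFDerivAt (fun w => h' (mI M w)) ((fderiv ℂ h' (mI M w)).comp (LI M)) w :=
    (hd' _).hasFDerivAt.comp w (LI M).hasFDerivAt
  have h2 : HasFDerivAt (fun w => h' (mI M w)) (c • fderiv ℂ h w) w := by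
    have h3 : (fun w => h' (mI M w)) = fun w => c * h w := funext hc
    rw [h3]
    exact (hd w).hasFDerivAt.const_mul c
  have h4 := congrArg (fun L => L e) (h1.unique h2)
  simp only [ContinuousLinearMap.comp_apply, LI_apply, _root_.smul_apply,
    smul_eq_mul] at h4
  rw [nab, nab, h4, hM, hc]
  ring

theorem nab_per {E : Matrix ι ι ℤ} (hE : ∀ i j, E i j = -E j i) {ep : (ι → ℤ) → ℂ}
    {h : (ι → ℂ) → ℂ} (hd : Differentiable ℂ h) (hh : QPer E ep h) (l : ι → ℤ) (e w : ι → ℂ) :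
    nab E h e (w + cI l) = ep l * cexp (-(π * I * En E (cI l) w)) * nab E h e w := by
  have h1 : HasFDerivAt (fun w => h (w + cI l)) (fderiv ℂ h (w + cI l)) w := by
    have := (hd (w + cI l)).hasFDerivAt.comp w ((hasFDerivAt_id w).add_const (cI l))
    rw [ContinuousLinearMap.comp_id] at this
    exact this
  have h2 : HasFDerivAt (fun w => ep l * cexp (-(π * I * En E (cI l) w)) * h w)
      ((ep l * cexp (-(π * I * En E (cI l) w))) • fderiv ℂ h w +
        h w • (ep l • (cexp (-(π * I * En E (cI l) w)) • -((π * I : ℂ) • EnR E (cI l))))) w := by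
    refine HasFDerivAt.mul (HasFDerivAt.const_mul (HasFDerivAt.cexp ?_) _) (hd w).hasFDerivAt
    exact ((EnR E (cI l)).hasFDerivAt.const_mul _).neg
  have h3 : (fun w => h (w + cI l)) = fun w => ep l * cexp (-(π * I * En E (cI l) w)) * h w :=
    funext (hh l)
  rw [h3] at h1
  have h4 := congrArg (fun L => L e) (h1.unique h2)
  simp only [_root_.add_apply, _root_.smul_apply,
    _root_.neg_apply, EnR_apply, smul_eq_mul] at h4
  rw [nab, nab, h4, hh, En_add_right, En_alt hE e (cI l)]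
  ring

theorem Dt_map {E : Matrix ι ι ℤ} {h h' : (ι → ℂ) → ℂ} (hd : Differentiable ℂ h)
    (hd' : Differentiable ℂ h') {M : Matrix ι ι ℤ}
    (hM : ∀ w w', En E (mI M w) (mI M w') = En E w w') {c : ℂ}
    (hc : ∀ w, h' (mI M w) = c * h w) {e1 e2 : ι → ℂ} {a b a' b' : ℂ} (hab : a * b' - b * a' = 1)
    (h1 : e1 = a • mI M e1 + b • mI M e2) (h2 : e2 = a' • mI M e1 + b' • mI M e2)
    (w1 w2 : ι → ℂ) :
    Dt E h' e1 e2 (mI M w1) (mI M w2) = c ^ 2 * Dt E h e1 e2 w1 w2 := by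
  have h3 : ∀ w, nab E h' e1 (mI M w) = c * (a * nab E h e1 w + b * nab E h e2 w) := by
    intro w
    rw [h1, nab_add, nab_map hd hd' hM hc, nab_map hd hd' hM hc, ← h1]
    ring
  have h4 : ∀ w, nab E h' e2 (mI M w) = c * (a' * nab E h e1 w + b' * nab E h e2 w) := by
    intro w
    rw [h2, nab_add, nab_map hd hd' hM hc, nab_map hd hd' hM hc, ← h2]
    ring
  rw [Dt, Dt, h3, h3, h4, h4]
  linear_combination (c ^ 2 * (nab E h e1 w1 * nab E h e2 w2 - nab E h e1 w2 * nab E h e2 w1)) * hab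

/-- shift of a point of `(1/d) Z^ι` by `2 d b` -/
theorem shift {E : Matrix ι ι ℤ} {ep : (ι → ℤ) → ℂ}
    (hep2 : ∀ l l' : ι → ℤ, (∀ i, (2 : ℤ) ∣ l i - l' i) → ep l = ep l') (hep0 : ep 0 = 1)
    {d : ℕ} (hd : 1 ≤ d) {t : ι → ℚ} {a b : ι → ℤ} (hta : ∀ i, t i = a i / d) :
    ep (fun i => 2 * d * b i) * cexp (-(π * I * En E (cI (fun i => 2 * d * b i)) (cQ t))) = 1 := by
  rw [hep2 _ 0 (fun i => by simp [mul_assoc]), hep0, one_mul]
  have h1 : En E (cI (fun i => 2 * d * b i)) (cQ t) = 2 * ((∑ i, ∑ j, b i * E i j * a j : ℤ) : ℂ) := by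
    have hd0 : (d : ℂ) ≠ 0 := by exact_mod_cast (by omega : d ≠ 0)
    simp only [En, bl, cI, cQ, hta]
    push_cast
    rw [Finset.mul_sum]
    refine Finset.sum_congr rfl fun i _ => ?_
    rw [Finset.mul_sum]
    refine Finset.sum_congr rfl fun j _ => ?_
    field_simp
  rw [h1]
  rw [show -(π * I * (2 * ((∑ i, ∑ j, b i * E i j * a j : ℤ) : ℂ))) =
    ((-(∑ i, ∑ j, b i * E i j * a j) : ℤ) : ℂ) * (2 * π * I) by push_cast; ring]
  exact Complex.exp_int_mul_two_pi_mul_I _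

/-- common denominator -/
theorem common_den (S : Finset (ι → ℚ)) : ∃ d : ℕ, 1 ≤ d ∧ ∀ t ∈ S, ∃ a : ι → ℤ,
    ∀ i, t i = a i / d := by
  classical
  refine ⟨∏ t ∈ S, ∏ i, (t i).den, Nat.one_le_iff_ne_zero.2 ?_, fun t ht => ?_⟩
  · exact Finset.prod_ne_zero_iff.2 fun t _ => Finset.prod_ne_zero_iff.2 fun i _ => (t i).den_nz
  · have h1 : ∀ i, ∃ k : ℕ, ∏ t ∈ S, ∏ i, (t i).den = (t i).den * k := fun i =>
      (Finset.dvd_prod_of_mem (fun i => (t i).den) (Finset.mem_univ i)).trans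
        (Finset.dvd_prod_of_mem (fun t : ι → ℚ => ∏ i, (t i).den) ht)
    choose k hk using h1
    refine ⟨fun i => (t i).num * k i, fun i => ?_⟩
    have hk0 : (k i : ℚ) ≠ 0 := by
      have : ∏ t ∈ S, ∏ i, (t i).den ≠ 0 :=
        Finset.prod_ne_zero_iff.2 fun t _ => Finset.prod_ne_zero_iff.2 fun i _ => (t i).den_nz
      rw [hk i] at this
      exact_mod_cast (mul_ne_zero_iff.1 this).2
    rw [hk i]
    push_cast
    rw [mul_div_mul_right _ _ hk0, Rat.num_div_den]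

section
variable [DecidableEq ι]

/-- the inverse is `≡ 1 mod n` too -/
theorem cong_inv {n : ℤ} {M M' : Matrix ι ι ℤ} (hM : M * M' = 1)
    (h : ∀ i j, n ∣ M i j - (1 : Matrix ι ι ℤ) i j) (i j : ι) :
    n ∣ M' i j - (1 : Matrix ι ι ℤ) i j := by
  have h1 : M' - 1 = -((M - 1) * M') := by
    rw [sub_mul, hM, one_mul]
    abel
  have h2 := congrFun (congrFun h1 i) j
  rw [Matrix.sub_apply, Matrix.neg_apply, Matrix.mul_apply] at h2
  rw [h2]
  refine (Finset.dvd_sum fun k _ => Dvd.dvd.mul_right ?_ _).neg_right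
  rw [Matrix.sub_apply]
  exact h i k

theorem pull_back {d : ℕ} (hd : 1 ≤ d) {M M' : Matrix ι ι ℤ} (hM : M * M' = 1)
    (h : ∀ i j, ((2 * d ^ 2 : ℕ) : ℤ) ∣ M i j - (1 : Matrix ι ι ℤ) i j) {t : ι → ℚ} {a : ι → ℤ}
    (hta : ∀ i, t i = a i / d) :
    ∃ b : ι → ℤ, mI M (cQ t + cI (fun i => 2 * d * b i)) = cQ t := by
  have h1 := cong_inv hM h
  choose B hB using h1
  refine ⟨fun i => ∑ j, B i j * a j, ?_⟩
  have h2 : cQ t + cI (fun i => 2 * d * ∑ j, B i j * a j) = mI M' (cQ t) := by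
    have hd0 : (d : ℂ) ≠ 0 := by exact_mod_cast (by omega : d ≠ 0)
    have h3 : M' = 1 + Matrix.of (fun i j => ((2 * d ^ 2 : ℕ) : ℤ) * B i j) := by
      ext i j
      rw [Matrix.add_apply, Matrix.of_apply]
      linarith [hB i j]
    funext i
    have h4 : mI M' (cQ t) i = mI 1 (cQ t) i +
        ∑ j, ((((2 * d ^ 2 : ℕ) : ℤ) * B i j : ℤ) : ℂ) * cQ t j := by
      rw [h3]
      simp only [mI, mv, Matrix.add_apply, Matrix.of_apply, Int.cast_add, add_mul,
        Finset.sum_add_distrib]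
    rw [h4, mI_one, Pi.add_apply]
    congr 1
    simp only [cI, cQ, hta]
    push_cast
    rw [Finset.mul_sum]
    refine Finset.sum_congr rfl fun j _ => ?_
    field_simp
  rw [h2, ← mI_mul, hM, mI_one]

end
/-! ### immersion -/

theorem exp_all {a : ℂ} (h : ∀ s : ℂ, cexp (s * a) = 1) : a = 0 := by
  by_contra ha
  have h1 := h (π * I / a)
  rw [div_mul_cancel₀ _ ha, Complex.exp_pi_mul_I] at h1
  norm_num at h1

/-- `∇_e h = 0` in integrated form -/
theorem nab_int {E : Matrix ι ι ℤ} (hE : ∀ i j, E i j = -E j i) {h : (ι → ℂ) → ℂ}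
    (hd : Differentiable ℂ h) {e : ι → ℂ} (he : ∀ w, nab E h e w = 0) (s : ℂ) (w : ι → ℂ) :
    h (w + s • e) = cexp (π * I * (s * En E e w)) * h w := by
  set φ : ℂ → ℂ := fun s => h (w + s • e) * cexp (-(π * I * (s * En E e w))) with hφ
  have h1 : ∀ s, HasDerivAt φ 0 s := by
    intro s
    have h2 : HasDerivAt (fun s : ℂ => w + s • e) e s := by
      simpa using ((hasDerivAt_id s).smul_const e).const_add w
    have h3 : HasDerivAt (fun s => h (w + s • e)) (fderiv ℂ h (w + s • e) e) s :=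
      (hd _).hasFDerivAt.comp_hasDerivAt s h2
    have h4 : HasDerivAt (fun s : ℂ => -(π * I * (s * En E e w))) (-(π * I * (1 * En E e w))) s :=
      (((hasDerivAt_id s).mul_const (En E e w)).const_mul (π * I : ℂ)).neg
    have h5 := h3.mul h4.cexp
    have h6 := he (w + s • e)
    rw [nab, En_add_right, En_smul_right, En_self hE, mul_zero, add_zero] at h6
    refine h5.congr_deriv ?_
    linear_combination (cexp (-(π * I * (s * En E e w)))) * h6
  have h2 : φ s = φ 0 := is_const_of_deriv_eq_zero (fun s => (h1 s).differentiableAt)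
    (fun s => (h1 s).deriv) s 0
  rw [hφ] at h2
  simp only [zero_smul, add_zero, zero_mul, mul_zero, neg_zero, Complex.exp_zero, mul_one] at h2
  rw [← h2, mul_comm, mul_assoc, ← Complex.exp_add]
  simp

theorem comm_zero {E : Matrix ι ι ℤ} (hE : ∀ i j, E i j = -E j i)
    {N : Submodule ℂ (ι → ℂ)} {h : (ι → ℂ) → ℂ} (hd : Differentiable ℂ h) (hne : ∃ w, h w ≠ 0)
    (hN : NPer E N h) {e : ι → ℂ} (he : ∀ w, nab E h e w = 0) {u : ι → ℂ} (hu : u ∈ N) :
    En E u e = 0 := by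
  obtain ⟨w, hw⟩ := hne
  have h1 : ∀ s : ℂ, cexp (s * (2 * π * I * En E u e)) = 1 := by
    intro s
    have h2 := nab_int hE hd he s (w + u)
    rw [hN u hu w] at h2
    have h3 := hN u hu (w + s • e)
    rw [nab_int hE hd he s w] at h3
    have h4 : w + u + s • e = w + s • e + u := by abel
    rw [h4, h3, En_add_right, En_add_right, En_smul_right, En_alt hE e u] at h2
    have h5 : cexp (π * I * (En E u w + s * En E u e)) * (cexp (π * I * (s * En E e w))) =
        cexp (π * I * (s * (En E e w + -En E u e))) * cexp (π * I * En E u w) := by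
      have := mul_right_cancel₀ hw ((mul_assoc _ _ _).trans (h2.trans (mul_assoc _ _ _).symm))
      exact this
    rw [← Complex.exp_add, ← Complex.exp_add] at h5
    have h6 : cexp (s * (2 * π * I * En E u e)) *
        cexp (π * I * (s * (En E e w + -En E u e)) + π * I * En E u w) =
        cexp (π * I * (En E u w + s * En E u e) + π * I * (s * En E e w)) := by
      rw [← Complex.exp_add]
      congr 1
      ring
    rw [h5] at h6
    exact mul_right_cancel₀ (Complex.exp_ne_zero _) (by rw [h6, one_mul])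
  have h2 := exp_all h1
  have h3 : (2 * π * I : ℂ) ≠ 0 := Complex.two_pi_I_ne_zero
  exact (mul_eq_zero.1 h2).resolve_left h3

theorem nab_of_NPer {E : Matrix ι ι ℤ} {N : Submodule ℂ (ι → ℂ)}
    {h : (ι → ℂ) → ℂ} (hd : Differentiable ℂ h)
    (hN : NPer E N h) {e : ι → ℂ} (he : e ∈ N) (w : ι → ℂ) : nab E h e w = 0 := by
  have h2 : HasDerivAt (fun s : ℂ => w + s • e) e 0 := by
    simpa using ((hasDerivAt_id (0 : ℂ)).smul_const e).const_add w
  have h3 : HasDerivAt (fun s : ℂ => h (w + s • e)) (fderiv ℂ h (w + (0 : ℂ) • e) e) 0 :=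
    (hd _).hasFDerivAt.comp_hasDerivAt 0 h2
  have h4 : HasDerivAt (fun s : ℂ => cexp (π * I * (s * En E e w)) * h w)
      (cexp (π * I * (0 * En E e w)) * (π * I * (1 * En E e w)) * h w) 0 :=
    ((((hasDerivAt_id (0 : ℂ)).mul_const (En E e w)).const_mul (π * I : ℂ)).cexp).mul_const _
  have h5 : (fun s : ℂ => h (w + s • e)) = fun s : ℂ => cexp (π * I * (s * En E e w)) * h w := by
    funext s
    rw [hN _ (N.smul_mem s he), En_smul_left]
  rw [h5] at h3
  have h6 := h3.unique h4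
  rw [nab]
  simp only [zero_smul, add_zero, zero_mul, mul_zero, Complex.exp_zero, one_mul] at h6
  rw [h6]
  ring

theorem TFam.diffx {E : Matrix ι ι ℤ} {ep : (ι → ℤ) → ℂ} {X : Set (ν → ℂ)}
    {N : (ν → ℂ) → Submodule ℂ (ι → ℂ)} {G : (ν → ℂ) → (ι → ℂ) → ℂ} (hT : TFam E ep X N G)
    {x : ν → ℂ} (hx : x ∈ X) (w : ι → ℂ) : DifferentiableAt ℂ (fun x => G x w) x := by
  have h1 : DifferentiableAt ℂ (fun z : (ν → ℂ) × (ι → ℂ) => G z.1 z.2) (x, w) :=
    hT.hol.differentiableAt ((hT.op.prod isOpen_univ).mem_nhds ⟨hx, mem_univ _⟩)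
  exact h1.comp (f := fun x => (x, w)) x (by fun_prop)

theorem TFam.immersion {E : Matrix ι ι ℤ} {ep : (ι → ℤ) → ℂ} {X : Set (ν → ℂ)}
    {N : (ν → ℂ) → Submodule ℂ (ι → ℂ)} {G : (ν → ℂ) → (ι → ℂ) → ℂ} (hT : TFam E ep X N G)
    {x1 : ν → ℂ} (hx1 : x1 ∈ X) {κ : Type} (fr : κ → (ν → ℂ) → (ι → ℂ))
    (hfr : ∀ k, DifferentiableAt ℂ (fr k) x1) (hfrN : ∀ k, ∀ x ∈ X, fr k x ∈ N x)
    (himm : ∀ v, (∀ k, ∀ u ∈ N x1, En E u (fderiv ℂ (fr k) x1 v) = 0) → v = 0)
    {s0 : ι → ℚ} (hs0 : G x1 (cQ s0) ≠ 0) (v : ν → ℂ)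
    (hv : ∀ t : ι → ℚ, fderiv ℂ (fun x => G x (cQ t) / G x (cQ s0)) x1 v = 0) : v = 0 := by
  classical
  have hX := hT.op.mem_nhds hx1
  have hd1 := hT.entire x1 hx1
  set Gh : (ν → ℂ) × (ι → ℂ) → ℂ := fun z => G z.1 z.2 with hGh
  have hGd : ∀ w, DifferentiableAt ℂ Gh (x1, w) := fun w =>
    hT.hol.differentiableAt ((hT.op.prod isOpen_univ).mem_nhds ⟨hx1, mem_univ _⟩)
  -- derivative in `x`
  set D : (ι → ℂ) → ℂ := fun w => fderiv ℂ Gh (x1, w) (v, 0) with hD
  have hDd : Differentiable ℂ D := by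
    intro w
    have h1 : AnalyticAt ℂ Gh (x1, w) :=
      analyticOnNhd_of_differentiableOn' (hT.op.prod isOpen_univ) hT.hol _ ⟨hx1, mem_univ _⟩
    have h2 : DifferentiableAt ℂ (fderiv ℂ Gh) (x1, w) := h1.fderiv.differentiableAt
    have h3 : DifferentiableAt ℂ (fun w => fderiv ℂ Gh (x1, w)) w :=
      h2.comp (f := fun w => (x1, w)) w (by fun_prop)
    exact h3.clm_apply (differentiableAt_const _)
  have hGx : ∀ w, HasFDerivAt (fun x => G x w)
      ((fderiv ℂ Gh (x1, w)).comp (ContinuousLinearMap.inl ℂ _ _)) x1 := by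
    intro w
    exact HasFDerivAt.comp (g := Gh) (f := fun x => (x, w)) x1 (hGd w).hasFDerivAt
      (hasFDerivAt_prodMk_left x1 w)
  have hDx : ∀ w, fderiv ℂ (fun x => G x w) x1 v = D w := by
    intro w
    rw [(hGx w).fderiv]
    rfl
  set κ0 : ℂ := D (cQ s0) / G x1 (cQ s0) with hκ0
  have h1 : ∀ w, D w = κ0 * G x1 w := by
    have h2 : ∀ t : ι → ℚ, D (cQ t) - κ0 * G x1 (cQ t) = 0 := by
      intro t
      have h3 := hv t
      have han : ∀ w, AnalyticAt ℂ (fun x => G x w) x1 := fun w =>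
        analyticOnNhd_of_differentiableOn hT.op (fun x hx => (hT.diffx hx w).differentiableWithinAt)
          x1 hx1
      have h4 : HasFDerivAt (fun x => G x (cQ t) / G x (cQ s0) * G x (cQ s0)) _ x1 :=
        ((han (cQ t)).div (han (cQ s0)) hs0).differentiableAt.hasFDerivAt.mul (hGx (cQ s0))
      have hev : (fun x => G x (cQ t) / G x (cQ s0) * G x (cQ s0)) =ᶠ[𝓝 x1]
          fun x => G x (cQ t) := by
        filter_upwards [(han (cQ s0)).continuousAt.eventually_ne hs0] with x hx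
        exact div_mul_cancel₀ _ hx
      have h6 := congrArg (fun L => L v) ((h4.congr_of_eventuallyEq hev.symm).unique (hGx (cQ t)))
      simp only [_root_.smul_apply, _root_.add_apply, ContinuousLinearMap.comp_apply,
        ContinuousLinearMap.inl_apply, smul_eq_mul] at h6
      have h7 : fderiv ℂ (fun x => G x (cQ t)) x1 v = D (cQ t) := hDx _
      have h5 : G x1 (cQ s0) * D (cQ t) - G x1 (cQ t) * D (cQ s0) = 0 := by
        have h8 : G x1 (cQ t) / G x1 (cQ s0) * D (cQ s0) +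
            G x1 (cQ s0) * fderiv ℂ (fun x => G x (cQ t) / G x (cQ s0)) x1 v = D (cQ t) := h6
        rw [h3] at h8
        field_simp at h8
        linear_combination -h8
      rw [hκ0]
      field_simp
      linear_combination h5
    have h3 := rat_zero (h := fun w => D w - κ0 * G x1 w)
      (hDd.sub (hd1.const_mul _)) h2
    exact fun w => sub_eq_zero.1 (h3 w)
  refine himm v fun k u hu => ?_
  set de : ι → ℂ := fderiv ℂ (fr k) x1 v with hde
  set e : ι → ℂ := fr k x1 with he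
  have hfd : HasFDerivAt (fr k) (fderiv ℂ (fr k) x1) x1 := (hfr k).hasFDerivAt
  -- the differentiated relation
  have h2 : ∀ (s : ℂ) (w : ι → ℂ), s * nab E (G x1) de w =
      -(π * I * (s * (s * En E de e)) * G x1 w) := by
    intro s w'
    set w : ι → ℂ := w' - s • e with hw
    have hww : w + s • e = w' := by rw [hw]; abel
    have h3 : HasFDerivAt (fun x => G x (w + s • fr k x))
        ((fderiv ℂ Gh (x1, w + s • e)).comp
          ((ContinuousLinearMap.id ℂ _).prod (s • fderiv ℂ (fr k) x1))) x1 := by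
      refine HasFDerivAt.comp (g := Gh) (f := fun x => (x, w + s • fr k x)) x1
        (hGd _).hasFDerivAt ?_
      exact (hasFDerivAt_id x1).prodMk ((hfd.const_smul s).const_add w)
    have h4 : HasFDerivAt (fun x => cexp (π * I * (s * En E (fr k x) w)) * G x w)
        (cexp (π * I * (s * En E e w)) • ((fderiv ℂ Gh (x1, w)).comp
          (ContinuousLinearMap.inl ℂ _ _)) +
          G x1 w • (cexp (π * I * (s * En E e w)) • ((π * I : ℂ) • (s •
            (-(EnR E w).comp (fderiv ℂ (fr k) x1)))))) x1 := by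
      refine HasFDerivAt.mul (HasFDerivAt.cexp ?_) (hGx w)
      refine HasFDerivAt.const_mul (HasFDerivAt.const_mul ?_ s) _
      have h5 : (fun x => En E (fr k x) w) = fun x => -(EnR E w (fr k x)) := by
        funext x
        rw [En_alt hT.alt, EnR_apply]
      rw [h5]
      exact ((EnR E w).hasFDerivAt.comp x1 hfd).neg
    have h5 : (fun x => G x (w + s • fr k x)) =ᶠ[𝓝 x1]
        fun x => cexp (π * I * (s * En E (fr k x) w)) * G x w := by
      filter_upwards [hX] with x hx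
      rw [hT.np x hx _ ((N x).smul_mem s (hfrN k x hx)), En_smul_left]
    have h6 := congrArg (fun L => L v) ((h3.congr_of_eventuallyEq h5.symm).unique h4)
    simp only [_root_.smul_apply, _root_.add_apply, _root_.neg_apply,
      ContinuousLinearMap.comp_apply, ContinuousLinearMap.inl_apply, smul_eq_mul,
      ContinuousLinearMap.prod_apply, ContinuousLinearMap.id_apply, EnR_apply] at h6
    rw [hww, ← hde] at h6
    have h7 : fderiv ℂ Gh (x1, w') (v, s • de) = D w' + s * fderiv ℂ (G x1) w' de := by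
      have h8 : (v, s • de) = (v, 0) + s • ((0 : ν → ℂ), de) := by
        ext <;> simp
      rw [h8, map_add, map_smul, smul_eq_mul]
      congr 2
      have h9 : HasFDerivAt (G x1) ((fderiv ℂ Gh (x1, w')).comp
          (ContinuousLinearMap.inr ℂ _ _)) w' :=
        HasFDerivAt.comp (g := Gh) (f := fun w => (x1, w)) w' (hGd w').hasFDerivAt
          (hasFDerivAt_prodMk_right x1 w')
      rw [h9.fderiv]
      rfl
    have h8 : fderiv ℂ Gh (x1, w) (v, 0) = κ0 * G x1 w := h1 w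
    have h9 : G x1 w' = cexp (π * I * (s * En E e w)) * G x1 w := by
      rw [← hww, hT.np x1 hx1 _ ((N x1).smul_mem s (hfrN k x1 hx1)), En_smul_left]
    have h10 : En E w de = -En E de w' + s * En E de e := by
      rw [En_alt hT.alt w de, hw]
      have : En E de (w' - s • e) = En E de w' - s * En E de e := by
        rw [sub_eq_add_neg, En_add_right, ← neg_smul, En_smul_right]
        ring
      rw [this]
      ring
    rw [h7, h8, h1 w', h10] at h6
    rw [nab]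
    rw [h9] at h6 ⊢
    linear_combination h6
  have h3 : En E de e = 0 := by
    obtain ⟨w, hw⟩ := hT.ne x1 hx1
    have h4 := h2 1 w
    have h5 := h2 2 w
    have h6 : (2 * π * I : ℂ) * En E de e * G x1 w = 0 := by linear_combination h5 - 2 * h4
    rcases mul_eq_zero.1 h6 with h7 | h7
    · exact (mul_eq_zero.1 h7).resolve_left Complex.two_pi_I_ne_zero
    · exact absurd h7 hw
  have h4 : ∀ w, nab E (G x1) de w = 0 := by
    intro w
    have := h2 1 w
    rw [h3] at this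
    simpa using this
  exact comm_zero hT.alt hd1 (hT.ne x1 hx1) (hT.np x1 hx1) h4 hu
/-! ### the conjugate of an isometry by a rational one -/

section
variable [DecidableEq ι]

theorem mQ_cast (M : Matrix ι ι ℤ) (w : ι → ℂ) :
    mI M w = mQ (M.map (fun a : ℤ => (a : ℚ))) w := (mQ_int M w).symm

/-- a common denominator of a rational matrix -/
theorem den_mat (R : Matrix ι ι ℚ) : ∃ r : ℕ, 1 ≤ r ∧ ∃ A : Matrix ι ι ℤ, ∀ i j, R i j = A i j / r := by
  obtain ⟨r, hr, h⟩ := common_den (ι := ι) (Finset.univ.image R)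
  have h1 : ∀ i, ∃ a : ι → ℤ, ∀ j, R i j = a j / r := fun i =>
    h (R i) (Finset.mem_image_of_mem _ (Finset.mem_univ i))
  choose A hA using h1
  exact ⟨r, hr, A, hA⟩

theorem conj_iso {E : Matrix ι ι ℤ} (R R' : Matrix ι ι ℚ) (hR : R * R' = 1)
    (hRE : ∀ w w', En E (mQ R w) (mQ R w') = En E w w') :
    ∃ r : ℕ, 1 ≤ r ∧ ∀ (n : ℕ) (N1 N2 N1' N2' : Submodule ℂ (ι → ℂ)) (M M' : Matrix ι ι ℤ),
      (∀ e, e ∈ N1 ↔ mQ R e ∈ N1') → (∀ e, e ∈ N2 ↔ mQ R e ∈ N2') →
      IsoI E (r * n) N1 N2 M M' → ∃ M1 M1' : Matrix ι ι ℤ, IsoI E n N1' N2' M1 M1' := by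
  obtain ⟨r1, hr1, A, hA⟩ := den_mat R
  obtain ⟨r2, hr2, A', hA'⟩ := den_mat R'
  have hR' : R' * R = 1 := mul_eq_one_comm.1 hR
  refine ⟨r1 * r2, Nat.mul_pos hr1 hr2, fun n N1 N2 N1' N2' M M' h1 h2 hM => ?_⟩
  -- the conjugate of a matrix `≡ 1`
  have key : ∀ M : Matrix ι ι ℤ, (∀ i j, ((r1 * r2 * n : ℕ) : ℤ) ∣ M i j - (1 : Matrix ι ι ℤ) i j) →
      ∃ M1 : Matrix ι ι ℤ, (∀ i j, (n : ℤ) ∣ M1 i j - (1 : Matrix ι ι ℤ) i j) ∧
        M1.map (fun a : ℤ => (a : ℚ)) = R * M.map (fun a : ℤ => (a : ℚ)) * R' := by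
    intro M hM
    choose B hB using hM
    have hr1' : (r1 : ℚ) ≠ 0 := by exact_mod_cast (by omega : r1 ≠ 0)
    have hr2' : (r2 : ℚ) ≠ 0 := by exact_mod_cast (by omega : r2 ≠ 0)
    set B1 : Matrix ι ι ℤ := Matrix.of B with hB1
    refine ⟨1 + (n : ℤ) • (A * B1 * A'), fun i j => ?_, ?_⟩
    · rw [Matrix.add_apply, Matrix.smul_apply, add_sub_cancel_left, smul_eq_mul]
      exact dvd_mul_right _ _
    · have hRA : R = (r1 : ℚ)⁻¹ • A.map (fun a : ℤ => (a : ℚ)) := by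
        ext i j
        rw [Matrix.smul_apply, Matrix.map_apply, hA, smul_eq_mul, div_eq_inv_mul]
      have hRA' : R' = (r2 : ℚ)⁻¹ • A'.map (fun a : ℤ => (a : ℚ)) := by
        ext i j
        rw [Matrix.smul_apply, Matrix.map_apply, hA', smul_eq_mul, div_eq_inv_mul]
      have hMB : M.map (fun a : ℤ => (a : ℚ)) = 1 + ((r1 * r2 * n : ℕ) : ℚ) •
          B1.map (fun a : ℤ => (a : ℚ)) := by
        ext i j
        rw [Matrix.add_apply, Matrix.smul_apply, Matrix.map_apply, Matrix.map_apply, smul_eq_mul]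
        have h3 : M i j = (1 : Matrix ι ι ℤ) i j + ((r1 * r2 * n : ℕ) : ℤ) * B i j := by
          linarith [hB i j]
        rw [h3, hB1, Matrix.of_apply]
        push_cast
        congr 1
        rw [Matrix.one_apply, Matrix.one_apply]
        split_ifs <;> simp
      have hmul : ∀ P Q : Matrix ι ι ℤ, (P * Q).map (fun a : ℤ => (a : ℚ)) =
          P.map (fun a : ℤ => (a : ℚ)) * Q.map (fun a : ℤ => (a : ℚ)) := fun P Q =>
        Matrix.map_mul (f := Int.castRingHom ℚ)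
      have hone : (1 + (n : ℤ) • (A * B1 * A')).map (fun a : ℤ => (a : ℚ)) =
          1 + (n : ℚ) • (A * B1 * A').map (fun a : ℤ => (a : ℚ)) := by
        ext i j
        rw [Matrix.map_apply, Matrix.add_apply, Matrix.smul_apply, Matrix.add_apply,
          Matrix.smul_apply, Matrix.map_apply, smul_eq_mul, smul_eq_mul]
        push_cast
        congr 1
        rw [Matrix.one_apply, Matrix.one_apply]
        split_ifs <;> simp
      rw [hone, hMB, mul_add, add_mul, mul_one, hR]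
      congr 1
      rw [hmul, hmul]
      rw [hRA, hRA']
      simp only [Matrix.smul_mul, Matrix.mul_smul, smul_smul]
      congr 1
      push_cast
      field_simp
  obtain ⟨M1, hM1, hM1'⟩ := key M hM.cong
  obtain ⟨M2, hM2, hM2'⟩ := key M' (fun i j => cong_inv hM.inv hM.cong i j)
  have hinj : Function.Injective (fun P : Matrix ι ι ℤ => P.map (fun a : ℤ => (a : ℚ))) :=
    Matrix.map_injective Int.cast_injective
  have hact : ∀ w, mI M1 w = mQ R (mI M (mQ R' w)) := by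
    intro w
    rw [mQ_cast, hM1', mQ_mul, mQ_mul, ← mQ_cast]
  refine ⟨M1, M2, ?_, ?_, hM1, ?_⟩
  · apply hinj
    have hmul : ∀ P Q : Matrix ι ι ℤ, (P * Q).map (fun a : ℤ => (a : ℚ)) =
        P.map (fun a : ℤ => (a : ℚ)) * Q.map (fun a : ℤ => (a : ℚ)) := fun P Q =>
      Matrix.map_mul (f := Int.castRingHom ℚ)
    have hone : (1 : Matrix ι ι ℤ).map (fun a : ℤ => (a : ℚ)) = 1 :=
      Matrix.map_one _ Int.cast_zero Int.cast_one
    simp only
    rw [hmul, hM1', hM2', hone]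
    have h3 : M.map (fun a : ℤ => (a : ℚ)) * M'.map (fun a : ℤ => (a : ℚ)) = 1 := by
      rw [← hmul, hM.inv, hone]
    calc R * M.map (fun a : ℤ => (a : ℚ)) * R' * (R * M'.map (fun a : ℤ => (a : ℚ)) * R')
        = R * M.map (fun a : ℤ => (a : ℚ)) * (R' * R) * M'.map (fun a : ℤ => (a : ℚ)) * R' := by
          simp only [mul_assoc]
      _ = R * (M.map (fun a : ℤ => (a : ℚ)) * M'.map (fun a : ℤ => (a : ℚ))) * R' := by
          rw [hR', mul_one]
          simp only [mul_assoc]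
      _ = 1 := by rw [h3, mul_one, hR]
  · intro w w'
    have h3 : ∀ w w', En E (mQ R' w) (mQ R' w') = En E w w' := by
      intro w w'
      rw [← hRE, ← mQ_mul, ← mQ_mul, hR, mQ_one, mQ_one]
    rw [hact, hact, hRE, hM.iso, h3]
  · intro e
    have h3 : mQ R (mQ R' e) = e := by rw [← mQ_mul, hR, mQ_one]
    rw [hact, ← h2, ← hM.map, h1, h3]

end

/-! ### the family theorem -/

/-- **Family theorem** (block F). -/
theorem family [DecidableEq ι] {E : Matrix ι ι ℤ} {ep : (ι → ℤ) → ℂ} {X : Set (ν → ℂ)}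
    {N : (ν → ℂ) → Submodule ℂ (ι → ℂ)} {G : (ν → ℂ) → (ι → ℂ) → ℂ} (hT : TFam E ep X N G)
    (x1 : ν → ℂ) (hx1 : x1 ∈ X) (g : (ν → ℂ) → (ν → ℂ)) (hg : MapsTo g X X)
    (hgd : DifferentiableOn ℂ g X) (hg1 : g x1 = x1) (hg' : ∀ v, fderiv ℂ g x1 v = v → v = 0)
    (R R' : Matrix ι ι ℚ) (hR : R * R' = 1) (hRE : ∀ w w', En E (mQ R w) (mQ R w') = En E w w')
    (hRN : ∀ x ∈ X, ∀ e, e ∈ N x ↔ mQ R e ∈ N (g x))
    {κ : Type} (fr : κ → (ν → ℂ) → (ι → ℂ)) (hfr : ∀ k, DifferentiableAt ℂ (fr k) x1)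
    (hfrN : ∀ k, ∀ x ∈ X, fr k x ∈ N x)
    (himm : ∀ v, (∀ k, ∀ u ∈ N x1, En E u (fderiv ℂ (fr k) x1 v) = 0) → v = 0)
    (e1 e2 : ι → ℂ) (hc : Cpt E X N e1 e2)
    (O : Set (ν → ℂ)) (hO : X ⊆ closure O) (hOg : MapsTo g O O)
    (hOA : ∀ x ∈ O, ∀ t a : ι → ℚ, G x (cQ a) ≠ 0 → IsAlgebraic ℚ (G x (cQ t) / G x (cQ a)))
    (P : ℂ)
    (hOB : ∀ x ∈ O, ∀ t1 t2 a : ι → ℚ, G x (cQ a) ≠ 0 →
      IsAlgebraic ℚ (Dt E (G x) e1 e2 (cQ t1) (cQ t2) / (P * G x (cQ a) ^ 2))) :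
    (∀ t a : ι → ℚ, G x1 (cQ a) ≠ 0 → IsAlgebraic ℚ (G x1 (cQ t) / G x1 (cQ a))) ∧
      ∀ t1 t2 a : ι → ℚ, G x1 (cQ a) ≠ 0 →
        IsAlgebraic ℚ (Dt E (G x1) e1 e2 (cQ t1) (cQ t2) / (P * G x1 (cQ a) ^ 2)) := by
  classical
  have hAd : ∀ t : ι → ℚ, DifferentiableOn ℂ (fun x => G x (cQ t)) X := fun t x hx =>
    (hT.diffx hx _).differentiableWithinAt
  have hnd : ∀ e w : ι → ℂ, DifferentiableOn ℂ (fun x => nab E (G x) e w) X := by
    intro e w x hx
    have hop := hT.op.prod (isOpen_univ (X := ι → ℂ))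
    have h1 : AnalyticAt ℂ (fun z : (ν → ℂ) × (ι → ℂ) => G z.1 z.2) (x, w) :=
      analyticOnNhd_of_differentiableOn' hop hT.hol _ ⟨hx, mem_univ _⟩
    have h2 : DifferentiableAt ℂ (fderiv ℂ (fun z : (ν → ℂ) × (ι → ℂ) => G z.1 z.2)) (x, w) :=
      h1.fderiv.differentiableAt
    have h3 : DifferentiableAt ℂ
        (fun x => fderiv ℂ (fun z : (ν → ℂ) × (ι → ℂ) => G z.1 z.2) (x, w) (0, e)) x :=
      (h2.comp (f := fun x => (x, w)) x (by fun_prop)).clm_apply (differentiableAt_const _)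
    have h4 : (fun x => fderiv ℂ (G x) w e) =ᶠ[𝓝 x]
        fun x => fderiv ℂ (fun z : (ν → ℂ) × (ι → ℂ) => G z.1 z.2) (x, w) (0, e) := by
      filter_upwards [hT.op.mem_nhds hx] with y hy
      have h5 : DifferentiableAt ℂ (fun z : (ν → ℂ) × (ι → ℂ) => G z.1 z.2) (y, w) :=
        hT.hol.differentiableAt (hop.mem_nhds ⟨hy, mem_univ _⟩)
      have h6 : HasFDerivAt (G y) ((fderiv ℂ (fun z : (ν → ℂ) × (ι → ℂ) => G z.1 z.2) (y, w)).comp
          (ContinuousLinearMap.inr ℂ _ _)) w :=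
        HasFDerivAt.comp (g := fun z : (ν → ℂ) × (ι → ℂ) => G z.1 z.2) (f := fun w => (y, w)) w
          h5.hasFDerivAt (hasFDerivAt_prodMk_right y w)
      rw [h6.fderiv]
      rfl
    have h5 := h3.congr_of_eventuallyEq h4
    exact (h5.sub ((hT.diffx hx w).const_mul _)).differentiableWithinAt
  obtain ⟨r, hr, hcj⟩ := conj_iso (E := E) R R' hR hRE
  obtain ⟨s0, hs0⟩ : ∃ t : ι → ℚ, G x1 (cQ t) ≠ 0 := by
    by_contra hcon
    push Not at hcon
    obtain ⟨w, hw⟩ := hT.ne x1 hx1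
    exact hw (rat_zero (hT.entire x1 hx1) hcon w)
  have hMpos : ∀ x ∈ X, 0 < Mx (G x) := fun x hx =>
    Mx_pos (hT.entire x hx) (hT.qp x hx) hT.ep1 (hT.ne x hx)
  -- automorphy at rational points
  have hrat : ∀ {x y : ν → ℂ}, x ∈ X → y ∈ X → ∀ {d : ℕ}, 1 ≤ d → ∀ {M M' : Matrix ι ι ℤ},
      IsoI E (2 * d ^ 2) (N y) (N x) M M' → ∃ c : ℂ, ‖c‖ = Mx (G x) / Mx (G y) ∧
        (∀ (t : ι → ℚ) (a : ι → ℤ), (∀ i, t i = a i / d) → G x (cQ t) = c * G y (cQ t)) ∧
        ∀ (p q p' q' : ℂ), p * q' - q * p' = 1 → e1 = p • mI M e1 + q • mI M e2 →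
          e2 = p' • mI M e1 + q' • mI M e2 → ∀ (t t' : ι → ℚ) (a a' : ι → ℤ),
          (∀ i, t i = a i / d) → (∀ i, t' i = a' i / d) →
          Dt E (G x) e1 e2 (cQ t) (cQ t') = c ^ 2 * Dt E (G y) e1 e2 (cQ t) (cQ t') := by
    intro x y hx hy d hd M M' hM
    obtain ⟨c, hc0, hc⟩ := hT.iso hT.entire hx hy (Dvd.intro _ rfl) hM
    have hep0 : ep 0 = 1 := (hT.qp x hx).zero (hT.ne x hx)
    refine ⟨c, ?_, ?_, ?_⟩
    · rw [eq_div_iff (hMpos y hy).ne']
      exact (Mx_iso (hT.entire y hy) (hT.entire x hx) (hT.qp y hy) (hT.qp x hx) hT.ep1 hM.inv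
        hc).symm
    · intro t a hta
      obtain ⟨b, hb⟩ := pull_back hd hM.inv hM.cong hta
      have h1 := hc (cQ t + cI (fun i => 2 * d * b i))
      rw [hb, hT.qp y hy, shift hT.ep2 hep0 hd hta, one_mul] at h1
      exact h1
    · intro p q p' q' hpq he1 he2 t t' a a' hta hta'
      obtain ⟨b, hb⟩ := pull_back hd hM.inv hM.cong hta
      obtain ⟨b', hb'⟩ := pull_back hd hM.inv hM.cong hta'
      have h1 := Dt_map (hT.entire y hy) (hT.entire x hx) hM.iso hc hpq he1 he2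
        (cQ t + cI (fun i => 2 * d * b i)) (cQ t' + cI (fun i => 2 * d * b' i))
      rw [hb, hb'] at h1
      rw [h1]
      congr 1
      simp only [Dt, nab_per hT.alt (hT.entire y hy) (hT.qp y hy), shift hT.ep2 hep0 hd hta,
        shift hT.ep2 hep0 hd hta', one_mul]
  have main : ∀ (B : (ν → ℂ) → ℂ), DifferentiableOn ℂ B X →
      (∀ S : Finset (ι → ℚ), Aut (fun (t : ι → ℚ) x => G x (cQ t)) g (fun x => (Mx (G x))⁻¹) X S B) →
      (∀ x ∈ O, ∀ s : ι → ℚ, G x (cQ s) ≠ 0 → IsAlgebraic ℚ (B x / (G x (cQ s)) ^ 2)) →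
      (∀ t : ι → ℚ, IsAlgebraic ℚ (G x1 (cQ t) / G x1 (cQ s0))) ∧
        IsAlgebraic ℚ (B x1 / (G x1 (cQ s0)) ^ 2) := by
    intro B hB hS hOB'
    exact fam (fun (t : ι → ℚ) x => G x (cQ t)) g (fun x => (Mx (G x))⁻¹) hT.op hT.conn B hAd hB
      hg hgd x1 hx1 hg1 hg' ((Mx_cont hT).inv₀ fun x hx => (hMpos x hx).ne')
      (fun x hx => inv_pos.2 (hMpos x hx)) hS O hO (fun x hx s t => hOA x hx t s)
      (fun x hx s t => hOA (g x) (hOg hx) t s) hOB' s0 hs0
      (fun v hv => hT.immersion hx1 fr hfr hfrN himm hs0 v hv)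
  have hAut : ∀ (S : Finset (ι → ℚ)), ∃ D, IsCompact D ∧ D ⊆ X ∧ ∀ x ∈ X, ∃ y ∈ D, ∃ c c' : ℂ,
      ‖c‖ = (Mx (G y))⁻¹ / (Mx (G x))⁻¹ ∧ ‖c'‖ = (Mx (G (g y)))⁻¹ / (Mx (G (g x)))⁻¹ ∧
      (∀ t ∈ S, G x (cQ t) = c * G y (cQ t) ∧ G (g x) (cQ t) = c' * G (g y) (cQ t)) ∧
      ∀ t ∈ S, ∀ t' ∈ S, Dt E (G x) e1 e2 (cQ t) (cQ t') =
        c ^ 2 * Dt E (G y) e1 e2 (cQ t) (cQ t') := by
    intro S
    obtain ⟨d, hd, hdS⟩ := common_den S
    obtain ⟨D, hD, hDX, hDc⟩ := hc (r * (2 * d ^ 2)) (Nat.mul_pos hr (by positivity))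
    refine ⟨D, hD, hDX, fun x hx => ?_⟩
    obtain ⟨y, hy, M, M', hM, p, q, p', q', hpq, he1, he2⟩ := hDc x hx
    have hyX := hDX hy
    have hM0 : IsoI E (2 * d ^ 2) (N y) (N x) M M' :=
      ⟨hM.inv, hM.iso, fun i j => (Int.natCast_dvd_natCast.2 (Dvd.intro_left _ rfl)).trans
        (hM.cong i j), hM.map⟩
    obtain ⟨M1, M1', hM1⟩ := hcj (2 * d ^ 2) (N y) (N x) (N (g y)) (N (g x)) M M' (hRN y hyX)
      (hRN x hx) hM
    obtain ⟨c, hc1, hc2, hc3⟩ := hrat hx hyX hd hM0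
    obtain ⟨c', hc1', hc2', -⟩ := hrat (hg hx) (hg hyX) hd hM1
    refine ⟨y, hy, c, c', ?_, ?_, fun t ht => ?_, fun t ht t' ht' => ?_⟩
    · rw [hc1, inv_div_inv]
    · rw [hc1', inv_div_inv]
    · obtain ⟨a, ha⟩ := hdS t ht
      exact ⟨hc2 t a ha, hc2' t a ha⟩
    · obtain ⟨a, ha⟩ := hdS t ht
      obtain ⟨a', ha'⟩ := hdS t' ht'
      exact hc3 p q p' q' hpq he1 he2 t t' a a' ha ha'
  -- change of the denominator
  have hden : ∀ (z : ℂ) (a : ι → ℚ), G x1 (cQ a) ≠ 0 →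
      (∀ t : ι → ℚ, IsAlgebraic ℚ (G x1 (cQ t) / G x1 (cQ s0))) →
      IsAlgebraic ℚ (z / (G x1 (cQ s0))) → IsAlgebraic ℚ (z / G x1 (cQ a)) := by
    intro z a ha h1 h2
    have h3 : z / G x1 (cQ a) = (z / G x1 (cQ s0)) / (G x1 (cQ a) / G x1 (cQ s0)) := by
      field_simp
    rw [h3, div_eq_mul_inv]
    exact h2.mul (h1 a).inv
  have h1 := (main (fun x => G x (cQ s0) ^ 2) ((hAd s0).pow 2) (fun S => by
    obtain ⟨D, hD, hDX, hDc⟩ := hAut (insert s0 S)
    refine ⟨D, hD, hDX, fun x hx => ?_⟩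
    obtain ⟨y, hy, c, c', h1, h2, h3, -⟩ := hDc x hx
    refine ⟨y, hy, c, c', h1, h2, fun t ht => h3 t (Finset.mem_insert_of_mem ht), ?_⟩
    simp only
    rw [(h3 s0 (Finset.mem_insert_self _ _)).1]
    ring) (fun x hx s hs => by
      rw [← div_pow]
      exact (hOA x hx s0 s hs).pow 2)).1
  refine ⟨fun t a ha => hden _ a ha h1 (h1 t), fun t1 t2 a ha => ?_⟩
  have h2 := (main (fun x => Dt E (G x) e1 e2 (cQ t1) (cQ t2) / P) (by
    simp only [Dt, div_eq_mul_inv]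
    exact (((hnd e1 _).mul (hnd e2 _)).sub ((hnd e1 _).mul (hnd e2 _))).mul_const P⁻¹) (fun S => by
    obtain ⟨D, hD, hDX, hDc⟩ := hAut (insert t1 (insert t2 S))
    refine ⟨D, hD, hDX, fun x hx => ?_⟩
    obtain ⟨y, hy, c, c', h1, h2, h3, h4⟩ := hDc x hx
    refine ⟨y, hy, c, c', h1, h2, fun t ht => h3 t (by simp [ht]), ?_⟩
    simp only
    rw [h4 t1 (by simp) t2 (by simp)]
    ring) (fun x hx s hs => by
      have := hOB x hx t1 t2 s hs
      rwa [div_mul_eq_div_div] at this)).2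
  have h3 : Dt E (G x1) e1 e2 (cQ t1) (cQ t2) / (P * G x1 (cQ a) ^ 2) =
      (Dt E (G x1) e1 e2 (cQ t1) (cQ t2) / P / (G x1 (cQ s0)) ^ 2) /
        (G x1 (cQ a) / G x1 (cQ s0)) ^ 2 := by
    field_simp
  rw [h3, div_eq_mul_inv]
  exact h2.mul ((h1 a).pow 2).inv

end

end Pool.Agent.Helper16.SH
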