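import Pool.Agent.Helper49.SH.Xd
import Pool.Agent.Helper16.SH.Fb
import Pool.Agent.Helper96.SH.Cg
import Pool.Agent.Helper35.SH.Ef
import Pool.Agent.Helper14.SH.Iso
import Pool.Agent.Helper52.SH.Ca
import Pool.Agent.Helper52.SH.Im
import Pool.Agent.Helper2.SH.Ke
import Pool.Agent.Helper94.SX.Xi
import Pool.Agent.Helper59.LT.Lat

/-!
PROJECT ALLQ (MP_274814_nt), target K_fam: the part without geometry.
-/

set_option autoImplicit false
set_option linter.unusedSectionVars false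

namespace Pool.Agent.Helper16.SH

open Finset Complex Pool.Agent.Helper49.SH
open Pool.Agent.Helper34.LT LTG Pool.Agent.Helper34.LU

noncomputable section

variable {ι ι' ι'' : Type} [Fintype ι] [Fintype ι'] [Fintype ι'']

/-! ### calculus -/

/-- the form of an integer matrix with rational entries -/
def EQ (E : Matrix ι ι ℤ) : ι → ι → ℚ := fun i j => (E i j : ℚ)

theorem Eb_EQ (E : Matrix ι ι ℤ) (w w' : ι → ℂ) : Eb (EQ E) w w' = En E w w' := by
  simp only [Eb, En, Pool.Agent.Helper96.SH.bl, EQ]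
  refine Finset.sum_congr rfl fun i _ => Finset.sum_congr rfl fun j _ => ?_
  push_cast
  ring

theorem Eb_add_l (E : ι → ι → ℚ) (a b w : ι → ℂ) : Eb E (a + b) w = Eb E a w + Eb E b w := by
  simp only [Eb, Pi.add_apply, ← Finset.sum_add_distrib]
  exact Finset.sum_congr rfl fun i _ => Finset.sum_congr rfl fun j _ => by ring

theorem Eb_add_r (E : ι → ι → ℚ) (a b w : ι → ℂ) : Eb E w (a + b) = Eb E w a + Eb E w b := by
  simp only [Eb, Pi.add_apply, ← Finset.sum_add_distrib]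
  exact Finset.sum_congr rfl fun i _ => Finset.sum_congr rfl fun j _ => by ring

theorem Eb_smul_l (E : ι → ι → ℚ) (c : ℂ) (a w : ι → ℂ) : Eb E (c • a) w = c * Eb E a w := by
  simp only [Eb, Pi.smul_apply, smul_eq_mul, Finset.mul_sum]
  exact Finset.sum_congr rfl fun i _ => Finset.sum_congr rfl fun j _ => by ring

theorem Eb_smul_r (E : ι → ι → ℚ) (c : ℂ) (a w : ι → ℂ) : Eb E w (c • a) = c * Eb E w a := by
  simp only [Eb, Pi.smul_apply, smul_eq_mul, Finset.mul_sum]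
  exact Finset.sum_congr rfl fun i _ => Finset.sum_congr rfl fun j _ => by ring

theorem Eb_inj {E E' : ι → ι → ℚ} (h : ∀ w w', Eb E w w' = Eb E' w w') : E = E' := by
  classical
  funext i j
  have h1 := h (Pi.single i 1) (Pi.single j 1)
  simp only [Eb, Pi.single_apply, mul_ite, mul_one, mul_zero, Finset.sum_ite_eq', Finset.mem_univ,
    if_true] at h1
  exact_mod_cast h1

theorem Eb_pb (E : ι → ι → ℚ) (M : ι → ι' → ℚ) (w w' : ι' → ℂ) :
    Eb (pb E M) w w' = Eb E (mv M w) (mv M w') := by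
  simp only [Eb, pb, mv, Finset.mul_sum, Finset.sum_mul]
  push_cast
  simp only [Finset.sum_mul]
  calc ∑ i', ∑ j', ∑ i, ∑ j, (E i j : ℂ) * (M i i') * (M j j') * w i' * w' j'
      = ∑ i, ∑ j, ∑ i', ∑ j', (E i j : ℂ) * (M i i') * (M j j') * w i' * w' j' := by
        have h1 : ∀ i', ∑ j', ∑ i, ∑ j, (E i j : ℂ) * (M i i') * (M j j') * w i' * w' j' =
            ∑ i, ∑ j, ∑ j', (E i j : ℂ) * (M i i') * (M j j') * w i' * w' j' := by
          intro i'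
          rw [Finset.sum_comm]
          exact Finset.sum_congr rfl fun i _ => Finset.sum_comm
        simp only [h1]
        rw [Finset.sum_comm]
        exact Finset.sum_congr rfl fun i _ => Finset.sum_comm
    _ = _ := by
        refine Finset.sum_congr rfl fun i _ => Finset.sum_congr rfl fun j _ => ?_
        rw [Finset.sum_comm]
        refine Finset.sum_congr rfl fun j' _ => Finset.sum_congr rfl fun i' _ => ?_
        ring

/-- product of rational matrices -/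
def mm (M : ι → ι' → ℚ) (M' : ι' → ι'' → ℚ) : ι → ι'' → ℚ := fun i k => ∑ j, M i j * M' j k

theorem mv_mm (M : ι → ι' → ℚ) (M' : ι' → ι'' → ℚ) (w : ι'' → ℂ) :
    mv (mm M M') w = mv M (mv M' w) := by
  funext i
  simp only [mv, mm, Finset.mul_sum]
  push_cast
  simp only [Finset.sum_mul]
  rw [Finset.sum_comm]
  exact Finset.sum_congr rfl fun j _ => Finset.sum_congr rfl fun k _ => by ring

theorem mv_add' (M : ι → ι' → ℚ) (a b : ι' → ℂ) : mv M (a + b) = mv M a + mv M b :=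
  (mvL M).map_add a b

theorem mv_smul' (M : ι → ι' → ℚ) (c : ℂ) (a : ι' → ℂ) : mv M (c • a) = c • mv M a :=
  (mvL M).map_smul c a

theorem mv_cj (M : ι → ι' → ℚ) (w : ι' → ℂ) : mv M (cj w) = cj (mv M w) := by
  funext i
  simp [mv, cj]

theorem Eb_dsum (E : ι → ι → ℚ) (E' : ι' → ι' → ℚ) (w w' : ι ⊕ ι' → ℂ) :
    Eb (dsum E E') w w' = Eb E (fun i => w (Sum.inl i)) (fun i => w' (Sum.inl i)) +
      Eb E' (fun i => w (Sum.inr i)) (fun i => w' (Sum.inr i)) := by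
  simp [Eb, dsum, Fintype.sum_sum_type]

theorem nab_lin (E : ι → ι → ℚ) (F : (ι → ℂ) → ℂ) (a b : ℂ) (e1 e2 w : ι → ℂ) :
    Helper49.SH.nab E (a • e1 + b • e2) F w =
      a * Helper49.SH.nab E e1 F w + b * Helper49.SH.nab E e2 F w := by
  simp only [Helper49.SH.nab, map_add, map_smul, Eb_add_l, Eb_smul_l, smul_eq_mul]
  ring

theorem nab_EQ (E : Matrix ι ι ℤ) (F : (ι → ℂ) → ℂ) (e w : ι → ℂ) :
    Helper49.SH.nab (EQ E) e F w = nab E F e w := by
  rw [Helper49.SH.nab, nab, Eb_EQ]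

theorem rv_cQ (t : ι → ℚ) : rv t = cQ t := rfl

theorem zv_cI (l : ι → ℤ) : zv l = Pool.Agent.Helper96.SH.cI l := rfl

theorem finrank_Np (N : Submodule ℂ (ι → ℂ)) (N' : Submodule ℂ (ι' → ℂ)) :
    Module.finrank ℂ (Np N N') = Module.finrank ℂ N + Module.finrank ℂ N' := by
  have e : (N × N') ≃ₗ[ℂ] Np N N' :=
    { toFun := fun p => ⟨Sum.elim (p.1 : ι → ℂ) (p.2 : ι' → ℂ), p.1.2, p.2.2⟩
      invFun := fun w => (⟨fun i => (w : ι ⊕ ι' → ℂ) (Sum.inl i), w.2.1⟩,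
        ⟨fun i => (w : ι ⊕ ι' → ℂ) (Sum.inr i), w.2.2⟩)
      map_add' := by
        intro p p'
        apply Subtype.ext
        funext i
        rcases i with i | i <;> simp
      map_smul' := by
        intro c p
        apply Subtype.ext
        funext i
        rcases i with i | i <;> simp
      left_inv := by
        intro p
        rfl
      right_inv := by
        intro w
        apply Subtype.ext
        funext i
        rcases i with i | i <;> rfl }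
  rw [← e.finrank_eq, Module.finrank_prod]

theorem Pol_dsum {E : ι → ι → ℚ} {N : Submodule ℂ (ι → ℂ)} {E' : ι' → ι' → ℚ}
    {N' : Submodule ℂ (ι' → ℂ)} (h : Pol E N) (h' : Pol E' N') : Pol (dsum E E') (Np N N') where
  alt := by
    intro i j
    rcases i with i | i <;> rcases j with j | j
    · exact h.alt i j
    · simp [dsum]
    · simp [dsum]
    · exact h'.alt i j
  iso := by
    intro e he e' he'
    rw [Eb_dsum, h.iso _ he.1 _ he'.1, h'.iso _ he.2 _ he'.2, add_zero]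
  pos := by
    intro e he he0
    rw [Eb_dsum, mul_add, neg_add, Complex.add_re]
    have h1 : ∀ {κ : Type} [Fintype κ] {A : κ → κ → ℚ} {B : Submodule ℂ (κ → ℂ)} (_ : Pol A B)
        (v : κ → ℂ), v ∈ B → 0 ≤ (-(I * Eb A v (cj v))).re ∧
          (v ≠ 0 → 0 < (-(I * Eb A v (cj v))).re) := by
      intro κ _ A B hAB v hv
      refine ⟨?_, hAB.pos v hv⟩
      by_cases hv0 : v = 0
      · subst hv0
        simp [Eb]
      · exact (hAB.pos v hv hv0).le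
    have h2 := h1 h _ he.1
    have h3 := h1 h' _ he.2
    have h4 : (fun i => e (Sum.inl i)) ≠ 0 ∨ (fun i => e (Sum.inr i)) ≠ 0 := by
      by_contra hcon
      push Not at hcon
      apply he0
      funext i
      rcases i with i | i
      · exact congrFun hcon.1 i
      · exact congrFun hcon.2 i
    rcases h4 with h4 | h4
    · exact add_pos_of_pos_of_nonneg (h2.2 h4) h3.1
    · exact add_pos_of_nonneg_of_pos h2.1 (h3.2 h4)
  dim := by
    rw [finrank_Np, mul_add, h.dim, h'.dim, Fintype.card_sum]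

/-! ### products and restriction -/

/-- left projection -/
def PL : (ι ⊕ ι' → ℂ) →L[ℂ] (ι → ℂ) :=
  ContinuousLinearMap.pi fun i => ContinuousLinearMap.proj (Sum.inl i)

/-- right projection -/
def PR : (ι ⊕ ι' → ℂ) →L[ℂ] (ι' → ℂ) :=
  ContinuousLinearMap.pi fun i => ContinuousLinearMap.proj (Sum.inr i)

theorem PL_apply (w : ι ⊕ ι' → ℂ) : PL w = fun i => w (Sum.inl i) := rfl

theorem PR_apply (w : ι ⊕ ι' → ℂ) : PR w = fun i => w (Sum.inr i) := rfl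

theorem nab_prod {E : ι → ι → ℚ} {E' : ι' → ι' → ℚ} {F : (ι → ℂ) → ℂ} {F' : (ι' → ℂ) → ℂ}
    (h : Differentiable ℂ F) (h' : Differentiable ℂ F') (e w : ι ⊕ ι' → ℂ) :
    Helper49.SH.nab (dsum E E') e
      (fun w => F (fun i => w (Sum.inl i)) * F' (fun i => w (Sum.inr i))) w =
      Helper49.SH.nab E (PL e) F (PL w) * F' (PR w) +
        F (PL w) * Helper49.SH.nab E' (PR e) F' (PR w) := by
  have h1 : HasFDerivAt (fun w : ι ⊕ ι' → ℂ => F (PL w)) ((fderiv ℂ F (PL w)).comp PL) w :=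
    (h _).hasFDerivAt.comp w (PL (ι := ι) (ι' := ι')).hasFDerivAt
  have h2 : HasFDerivAt (fun w : ι ⊕ ι' → ℂ => F' (PR w)) ((fderiv ℂ F' (PR w)).comp PR) w :=
    (h' _).hasFDerivAt.comp w (PR (ι := ι) (ι' := ι')).hasFDerivAt
  have h3 : HasFDerivAt (fun w : ι ⊕ ι' → ℂ => F (fun i => w (Sum.inl i)) *
      F' (fun i => w (Sum.inr i))) _ w := h1.mul h2
  rw [Helper49.SH.nab, h3.fderiv, Eb_dsum]
  simp only [_root_.smul_apply, _root_.add_apply, ContinuousLinearMap.comp_apply, smul_eq_mul,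
    Helper49.SH.nab, PL_apply, PR_apply]
  ring

theorem mem_Nc {N : Submodule ℂ (ι → ℂ)} {e : ι → ℂ} : e ∈ Nc N ↔ cj e ∈ N := Iff.rfl

theorem exists_rat {F : (ι → ℂ) → ℂ} (hd : Differentiable ℂ F) (h0 : F ≠ 0) :
    ∃ t : ι → ℚ, F (rv t) ≠ 0 := by
  by_contra hcon
  push Not at hcon
  exact h0 (funext fun w => rat_zero hd hcon w)

theorem V_left {E : ι → ι → ℚ} {N : Submodule ℂ (ι → ℂ)} {E' : ι' → ι' → ℚ}
    {N' : Submodule ℂ (ι' → ℂ)} (hP : Pol E N) (hP' : Pol E' N') (hG : Good E N)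
    (hG' : Good E' N') {e : ι → ℂ} (he : e ∈ Valg E N) :
    jl e ∈ Valg (dsum E E') (Np N N') := by
  obtain ⟨F, hF, hF0⟩ := hG
  obtain ⟨F', hF', hF0'⟩ := hG'
  refine Pool.Agent.Helper35.SH.E_one (Pol_dsum hP hP') (Pool.Agent.Helper52.SH.AlgT_prod hF hF') ?_ ?_ ?_
  · obtain ⟨t, ht⟩ := exists_rat hF.diff hF0
    obtain ⟨t', ht'⟩ := exists_rat hF'.diff hF0'
    intro h
    have := congrFun h (Sum.elim (rv t) (rv t'))
    simp only [Sum.elim_inl, Sum.elim_inr, Pi.zero_apply, mul_eq_zero] at this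
    exact this.elim ht ht'
  · rw [mem_Nc]
    refine ⟨?_, ?_⟩
    · have : (fun i => cj (jl (ι' := ι') e) (Sum.inl i)) = cj e := rfl
      rw [this]
      exact he.1
    · have : (fun i => cj (jl (ι' := ι') e) (Sum.inr i)) = 0 := by
        funext i
        simp [cj, jl]
      rw [this]
      exact N'.zero_mem
  · intro t _
    rw [nab_prod hF.diff hF'.diff]
    have h1 : PL (jl (ι' := ι') e) = e := rfl
    have h2 : PR (jl (ι' := ι') e) = 0 := rfl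
    have h3 : Helper49.SH.nab E' 0 F' (PR (rv t)) = 0 := by simp [Helper49.SH.nab, Eb]
    rw [h1, h2, h3, mul_zero, add_zero]
    exact (he.2 F hF fun i => t (Sum.inl i)).mul (hF'.val fun i => t (Sum.inr i))

theorem V_right {E : ι → ι → ℚ} {N : Submodule ℂ (ι → ℂ)} {E' : ι' → ι' → ℚ}
    {N' : Submodule ℂ (ι' → ℂ)} (hP : Pol E N) (hP' : Pol E' N') (hG : Good E N)
    (hG' : Good E' N') {e : ι' → ℂ} (he : e ∈ Valg E' N') :
    jr e ∈ Valg (dsum E E') (Np N N') := by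
  obtain ⟨F, hF, hF0⟩ := hG
  obtain ⟨F', hF', hF0'⟩ := hG'
  refine Pool.Agent.Helper35.SH.E_one (Pol_dsum hP hP') (Pool.Agent.Helper52.SH.AlgT_prod hF hF') ?_ ?_ ?_
  · obtain ⟨t, ht⟩ := exists_rat hF.diff hF0
    obtain ⟨t', ht'⟩ := exists_rat hF'.diff hF0'
    intro h
    have := congrFun h (Sum.elim (rv t) (rv t'))
    simp only [Sum.elim_inl, Sum.elim_inr, Pi.zero_apply, mul_eq_zero] at this
    exact this.elim ht ht'
  · rw [mem_Nc]
    refine ⟨?_, ?_⟩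
    · have : (fun i => cj (jr (ι := ι) e) (Sum.inl i)) = 0 := by
        funext i
        simp [cj, jr]
      rw [this]
      exact N.zero_mem
    · have : (fun i => cj (jr (ι := ι) e) (Sum.inr i)) = cj e := rfl
      rw [this]
      exact he.1
  · intro t _
    rw [nab_prod hF.diff hF'.diff]
    have h1 : PR (jr (ι := ι) e) = e := rfl
    have h2 : PL (jr (ι := ι) e) = 0 := rfl
    have h3 : Helper49.SH.nab E 0 F (PL (rv t)) = 0 := by simp [Helper49.SH.nab, Eb]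
    rw [h1, h2, h3, zero_mul, zero_add]
    exact (hF.val fun i => t (Sum.inl i)).mul (he.2 F' hF' fun i => t (Sum.inr i))

theorem Good_prod {E : ι → ι → ℚ} {N : Submodule ℂ (ι → ℂ)} {E' : ι' → ι' → ℚ}
    {N' : Submodule ℂ (ι' → ℂ)} (hG : Good E N) (hG' : Good E' N') :
    Good (dsum E E') (Np N N') := by
  obtain ⟨F, hF, hF0⟩ := hG
  obtain ⟨F', hF', hF0'⟩ := hG'
  refine ⟨_, Pool.Agent.Helper52.SH.AlgT_prod hF hF', ?_⟩
  obtain ⟨t, ht⟩ := exists_rat hF.diff hF0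
  obtain ⟨t', ht'⟩ := exists_rat hF'.diff hF0'
  intro h
  have := congrFun h (Sum.elim (rv t) (rv t'))
  simp only [Sum.elim_inl, Sum.elim_inr, Pi.zero_apply, mul_eq_zero] at this
  exact this.elim ht ht'

theorem Good_left {E : ι → ι → ℚ} {N : Submodule ℂ (ι → ℂ)} {E' : ι' → ι' → ℚ}
    {N' : Submodule ℂ (ι' → ℂ)} (h : Good (dsum E E') (Np N N')) : Good E N := by
  obtain ⟨F, hF, hF0⟩ := h
  obtain ⟨t, ht⟩ := exists_rat hF.diff hF0
  have hdt : ∀ w : ι → ℂ, HasFDerivAt (fun w : ι → ℂ => (Sum.elim w (fun i => rv t (Sum.inr i)) :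
      ι ⊕ ι' → ℂ)) (ContinuousLinearMap.pi (Sum.rec (fun i => ContinuousLinearMap.proj i)
        (fun _ => 0)) : (ι → ℂ) →L[ℂ] (ι ⊕ ι' → ℂ)) w := by
    intro w
    rw [hasFDerivAt_pi']
    rintro (i | i)
    · exact (ContinuousLinearMap.proj (R := ℂ) (φ := fun _ : ι => ℂ) i).hasFDerivAt
    · exact hasFDerivAt_const _ w
  have hFd : ∀ w : ι → ℂ, HasFDerivAt (fun w : ι → ℂ => F (Sum.elim w (fun i => rv t (Sum.inr i))))
      _ w := fun w => (hF.diff _).hasFDerivAt.comp w (hdt w)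
  refine ⟨fun w => F (Sum.elim w (fun i => rv t (Sum.inr i))), ⟨⟨fun w => (hFd w).differentiableAt,
    fun e he w => ?_, ?_⟩, fun s => ?_⟩, fun h0 => ht ?_⟩
  · rw [(hFd w).fderiv, ContinuousLinearMap.comp_apply]
    have h1 : (ContinuousLinearMap.pi (Sum.rec (fun i => ContinuousLinearMap.proj i)
        (fun _ => 0)) : (ι → ℂ) →L[ℂ] (ι ⊕ ι' → ℂ)) e = jl e := by
      funext i
      rcases i with i | i <;> rfl
    rw [h1, hF.hol _ ⟨he, N'.zero_mem⟩, Eb_dsum]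
    have h2 : Eb E' (fun i => jl (ι' := ι') e (Sum.inr i)) (fun i => (Sum.elim w
        (fun i => rv t (Sum.inr i)) : ι ⊕ ι' → ℂ) (Sum.inr i)) = 0 := by
      simp [Eb, jl]
    rw [h2, add_zero]
    rfl
  · obtain ⟨k, hk, hper⟩ := hF.per
    refine ⟨k, hk, fun l w => ?_⟩
    have h1 := hper (Sum.elim l 0) (Sum.elim w (fun i => rv t (Sum.inr i)))
    have h2 : (Sum.elim w (fun i => rv t (Sum.inr i)) : ι ⊕ ι' → ℂ) + (k : ℂ) • zv (Sum.elim l 0) =
        Sum.elim (w + (k : ℂ) • zv l) (fun i => rv t (Sum.inr i)) := by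
      funext i
      rcases i with i | i <;> simp [zv]
    have h3 : Eb (dsum E E') (zv (Sum.elim l 0)) (Sum.elim w (fun i => rv t (Sum.inr i))) =
        Eb E (zv l) w := by
      rw [Eb_dsum]
      have h2 : Eb E' (fun i => zv (Sum.elim l (0 : ι' → ℤ)) (Sum.inr i)) (fun i => (Sum.elim w
          (fun i => rv t (Sum.inr i)) : ι ⊕ ι' → ℂ) (Sum.inr i)) = 0 := by
        simp [Eb, zv]
      rw [h2, add_zero]
      rfl
    rw [h2, h3] at h1
    exact h1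
  · have h1 := hF.val (Sum.elim s (fun i => t (Sum.inr i)))
    have h2 : rv (Sum.elim s (fun i => t (Sum.inr i))) =
        (Sum.elim (rv s) (fun i => rv t (Sum.inr i)) : ι ⊕ ι' → ℂ) := by
      funext i
      rcases i with i | i <;> rfl
    rwa [h2] at h1
  · have h1 := congrFun h0 (fun i => rv t (Sum.inl i))
    have h2 : (Sum.elim (fun i => rv t (Sum.inl i)) (fun i => rv t (Sum.inr i)) : ι ⊕ ι' → ℂ) =
        rv t := by
      funext i
      rcases i with i | i <;> rfl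
    simp only [h2, Pi.zero_apply] at h1
    exact h1

theorem Good_right {E : ι → ι → ℚ} {N : Submodule ℂ (ι → ℂ)} {E' : ι' → ι' → ℚ}
    {N' : Submodule ℂ (ι' → ℂ)} (h : Good (dsum E E') (Np N N')) : Good E' N' := by
  obtain ⟨F, hF, hF0⟩ := h
  obtain ⟨t, ht⟩ := exists_rat hF.diff hF0
  have hdt : ∀ w : ι' → ℂ, HasFDerivAt (fun w : ι' → ℂ => (Sum.elim (fun i => rv t (Sum.inl i)) w :
      ι ⊕ ι' → ℂ)) (ContinuousLinearMap.pi (Sum.rec (fun _ => 0)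
        (fun i => ContinuousLinearMap.proj i)) : (ι' → ℂ) →L[ℂ] (ι ⊕ ι' → ℂ)) w := by
    intro w
    rw [hasFDerivAt_pi']
    rintro (i | i)
    · exact hasFDerivAt_const _ w
    · exact (ContinuousLinearMap.proj (R := ℂ) (φ := fun _ : ι' => ℂ) i).hasFDerivAt
  have hFd : ∀ w : ι' → ℂ, HasFDerivAt (fun w : ι' → ℂ => F (Sum.elim (fun i => rv t (Sum.inl i)) w))
      _ w := fun w => (hF.diff _).hasFDerivAt.comp w (hdt w)
  refine ⟨fun w => F (Sum.elim (fun i => rv t (Sum.inl i)) w), ⟨⟨fun w => (hFd w).differentiableAt,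
    fun e he w => ?_, ?_⟩, fun s => ?_⟩, fun h0 => ht ?_⟩
  · rw [(hFd w).fderiv, ContinuousLinearMap.comp_apply]
    have h1 : (ContinuousLinearMap.pi (Sum.rec (fun _ => 0)
        (fun i => ContinuousLinearMap.proj i)) : (ι' → ℂ) →L[ℂ] (ι ⊕ ι' → ℂ)) e = jr e := by
      funext i
      rcases i with i | i <;> rfl
    rw [h1, hF.hol _ ⟨N.zero_mem, he⟩, Eb_dsum]
    have h2 : Eb E (fun i => jr (ι := ι) e (Sum.inl i)) (fun i => (Sum.elim
        (fun i => rv t (Sum.inl i)) w : ι ⊕ ι' → ℂ) (Sum.inl i)) = 0 := by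
      simp [Eb, jr]
    rw [h2, zero_add]
    rfl
  · obtain ⟨k, hk, hper⟩ := hF.per
    refine ⟨k, hk, fun l w => ?_⟩
    have h1 := hper (Sum.elim 0 l) (Sum.elim (fun i => rv t (Sum.inl i)) w)
    have h2 : (Sum.elim (fun i => rv t (Sum.inl i)) w : ι ⊕ ι' → ℂ) + (k : ℂ) • zv (Sum.elim 0 l) =
        Sum.elim (fun i => rv t (Sum.inl i)) (w + (k : ℂ) • zv l) := by
      funext i
      rcases i with i | i <;> simp [zv]
    have h3 : Eb (dsum E E') (zv (Sum.elim 0 l)) (Sum.elim (fun i => rv t (Sum.inl i)) w) =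
        Eb E' (zv l) w := by
      rw [Eb_dsum]
      have h2 : Eb E (fun i => zv (Sum.elim (0 : ι → ℤ) l) (Sum.inl i)) (fun i => (Sum.elim
          (fun i => rv t (Sum.inl i)) w : ι ⊕ ι' → ℂ) (Sum.inl i)) = 0 := by
        simp [Eb, zv]
      rw [h2, zero_add]
      rfl
    rw [h2, h3] at h1
    exact h1
  · have h1 := hF.val (Sum.elim (fun i => t (Sum.inl i)) s)
    have h2 : rv (Sum.elim (fun i => t (Sum.inl i)) s) =
        (Sum.elim (fun i => rv t (Sum.inl i)) (rv s) : ι ⊕ ι' → ℂ) := by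
      funext i
      rcases i with i | i <;> rfl
    rwa [h2] at h1
  · have h1 := congrFun h0 (fun i => rv t (Sum.inr i))
    have h2 : (Sum.elim (fun i => rv t (Sum.inl i)) (fun i => rv t (Sum.inr i)) : ι ⊕ ι' → ℂ) =
        rv t := by
      funext i
      rcases i with i | i <;> rfl
    simp only [h2, Pi.zero_apply] at h1
    exact h1
/-! ### rational isomorphisms -/

theorem Pol_iso {E : ι → ι → ℚ} {N : Submodule ℂ (ι → ℂ)} (hP : Pol E N) {M : ι → ι' → ℚ}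
    {M' : ι' → ι → ℚ} (hM : Inv2 M M') : Pol (pb E M) (N.comap (mvL M)) where
  alt := by
    have h0 : ∀ w w', Eb E w w' = -Eb E w' w := by
      intro w w'
      simp only [Eb]
      rw [Finset.sum_comm, ← Finset.sum_neg_distrib]
      refine Finset.sum_congr rfl fun i _ => ?_
      rw [← Finset.sum_neg_distrib]
      refine Finset.sum_congr rfl fun j _ => ?_
      rw [hP.alt j i]
      push_cast
      ring
    intro i j
    have h : pb E M = fun i j => -pb E M j i := by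
      refine Eb_inj fun w w' => ?_
      have h1 : Eb (fun i j => -pb E M j i) w w' = -Eb (pb E M) w' w := by
        simp only [Eb]
        rw [Finset.sum_comm, ← Finset.sum_neg_distrib]
        refine Finset.sum_congr rfl fun i _ => ?_
        rw [← Finset.sum_neg_distrib]
        refine Finset.sum_congr rfl fun j _ => ?_
        push_cast
        ring
      rw [h1, Eb_pb, Eb_pb, h0]
    exact congrFun (congrFun h i) j
  iso := by
    intro e he e' he'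
    rw [Eb_pb]
    exact hP.iso _ he _ he'
  pos := by
    intro e he he0
    rw [Eb_pb, mv_cj]
    refine hP.pos _ he fun h => he0 ?_
    rw [← hM.2 e, h]
    exact (mvL M').map_zero
  dim := by
    have e1 : (ι' → ℂ) ≃ₗ[ℂ] (ι → ℂ) := LinearEquiv.ofLinearMap (mvL M) (mvL M')
      (LinearMap.ext hM.1) (LinearMap.ext hM.2)
    have h1 : Module.finrank ℂ (N.comap (mvL M)) = Module.finrank ℂ N := by
      have e2 : (N.comap (mvL M)) ≃ₗ[ℂ] N :=
        { toFun := fun w => ⟨mv M w, w.2⟩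
          invFun := fun w => ⟨mv M' w, by
            rw [Submodule.mem_comap]
            change mv M (mv M' w) ∈ N
            rw [hM.1]
            exact w.2⟩
          map_add' := fun a b => Subtype.ext (mv_add' M a b)
          map_smul' := fun c a => Subtype.ext (mv_smul' M c a)
          left_inv := fun w => Subtype.ext (hM.2 w)
          right_inv := fun w => Subtype.ext (hM.1 w) }
      exact e2.finrank_eq
    rw [h1, hP.dim]
    have h2 := e1.finrank_eq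
    rw [Module.finrank_fintype_fun_eq_card, Module.finrank_fintype_fun_eq_card] at h2
    exact h2.symm

/-- `det (∇_{e_i} F (w_j))` -/
def Dq (E : ι → ι → ℚ) (F : (ι → ℂ) → ℂ) (e1 e2 w1 w2 : ι → ℂ) : ℂ :=
  Helper49.SH.nab E e1 F w1 * Helper49.SH.nab E e2 F w2 -
    Helper49.SH.nab E e1 F w2 * Helper49.SH.nab E e2 F w1

theorem Dq_EQ (E : Matrix ι ι ℤ) (F : (ι → ℂ) → ℂ) (e1 e2 w1 w2 : ι → ℂ) :
    Dq (EQ E) F e1 e2 w1 w2 = Dt E F e1 e2 w1 w2 := by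
  simp only [Dq, Dt, nab_EQ]

/-- in terms of another pair of vectors -/
theorem Dq_lin (E : ι → ι → ℚ) (F : (ι → ℂ) → ℂ) (a b c d : ℂ) (v1 v2 w1 w2 : ι → ℂ) :
    Dq E F (a • v1 + c • v2) (b • v1 + d • v2) w1 w2 = (a * d - b * c) * Dq E F v1 v2 w1 w2 := by
  simp only [Dq, nab_lin]
  ring

theorem nab_smul_fun {E : ι → ι → ℚ} {F : (ι → ℂ) → ℂ} (hF : Differentiable ℂ F) (c : ℂ)
    (e w : ι → ℂ) :
    Helper49.SH.nab E e (fun w => c * F w) w = c * Helper49.SH.nab E e F w := by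
  have h : HasFDerivAt (fun w => c * F w) (c • fderiv ℂ F w) w := (hF w).hasFDerivAt.const_mul c
  simp only [Helper49.SH.nab, h.fderiv, _root_.smul_apply, smul_eq_mul]
  ring

theorem Dq_smul {E : ι → ι → ℚ} {F : (ι → ℂ) → ℂ} (hF : Differentiable ℂ F) (c : ℂ)
    (e1 e2 w1 w2 : ι → ℂ) :
    Dq E (fun w => c * F w) e1 e2 w1 w2 = c ^ 2 * Dq E F e1 e2 w1 w2 := by
  simp only [Dq, nab_smul_fun hF]
  ring

/-- **Plane lemma.** -/
theorem plane_lemma {q : ℕ} {sa sb : Finset ℕ} {ρa ρb : ℕ → ℂ} (ha : GoodS q sa ρa)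
    (hb : GoodS q sb ρb) {Ea Eb' : Iq q → Iq q → ℚ} (hPa : Pol Ea (Ns q sa))
    (hPb : Pol Eb' (Ns q sb)) (hGa : Good Ea (Ns q sa)) (hGb : Good Eb' (Ns q sb))
    {E : ι → ι → ℚ} {N : Submodule ℂ (ι → ℂ)} {B : Iq q ⊕ Iq q → ι → ℚ}
    {B' : ι → Iq q ⊕ Iq q → ℚ} (hB : Inv2 B B') (hpb : pb (dsum Ea Eb') B = E)
    (hN : (Np (Ns q sa) (Ns q sb)).comap (mvL B) = N) {u : ℕ} (hua : u ∈ sa) (hub : u ∈ sb)
    {ε : Iq q → ℂ} (hε : IsEps q u ε) {F : (ι → ℂ) → ℂ} (hF : AlgT E N F) {e1 e2 : ι → ℂ}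
    {a b c d : ℂ} (haa : IsAlgebraic ℚ a) (hba : IsAlgebraic ℚ b) (hca : IsAlgebraic ℚ c)
    (hda : IsAlgebraic ℚ d) (h1 : mv B e1 = a • jl ε + c • jr ε)
    (h2 : mv B e2 = b • jl ε + d • jr ε) (t1 t2 : ι → ℚ) :
    IsAlgebraic ℚ (Dq E F e1 e2 (rv t1) (rv t2) / (ρa u * ρb u)) := by
  obtain ⟨-, ξa, Ea0, -, hPa0, hGa0, hVa⟩ := ha
  obtain ⟨-, ξb, Eb0, -, hPb0, hGb0, hVb⟩ := hb
  obtain ⟨hρa, hVa⟩ := hVa u hua
  obtain ⟨hρb, hVb⟩ := hVb u hub
  have h3 := hVa ε hε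
  have h4 := hVb ε hε
  rw [Pool.Agent.Helper35.SH.E_indep hPa0 hPa hGa0 hGa] at h3
  rw [Pool.Agent.Helper35.SH.E_indep hPb0 hPb hGb0 hGb] at h4
  have h5 := V_left (ι' := Iq q) hPa hPb hGa hGb h3
  have h6 := V_right (ι := Iq q) hPa hPb hGa hGb h4
  have h7 := (Pool.Agent.Helper14.SH.E_iso (Pol_dsum hPa hPb) (Good_prod hGa hGb) B B' hB.1 hB.2).2.2
  rw [hpb, hN] at h7
  set v1 : ι → ℂ := mv B' (jl ((ρa u)⁻¹ • ε)) with hv1
  set v2 : ι → ℂ := mv B' (jr ((ρb u)⁻¹ • ε)) with hv2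
  have h8 : v1 ∈ Valg E N := by rw [h7, hv1, hB.1]; exact h5
  have h9 : v2 ∈ Valg E N := by rw [h7, hv2, hB.1]; exact h6
  have hjl : jl (ι' := Iq q) ε = (ρa u) • jl ((ρa u)⁻¹ • ε) := by
    funext i
    rcases i with i | i
    · simp [jl, hρa]
    · simp [jl]
  have hjr : jr (ι := Iq q) ε = (ρb u) • jr ((ρb u)⁻¹ • ε) := by
    funext i
    rcases i with i | i
    · simp [jr]
    · simp [jr, hρb]
  have h10 : e1 = (a * ρa u) • v1 + (c * ρb u) • v2 := by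
    rw [← hB.2 e1, h1, hjl, hjr, smul_smul, smul_smul, mv_add', mv_smul', mv_smul']
  have h11 : e2 = (b * ρa u) • v1 + (d * ρb u) • v2 := by
    rw [← hB.2 e2, h2, hjl, hjr, smul_smul, smul_smul, mv_add', mv_smul', mv_smul']
  rw [h10, h11, Dq_lin]
  have h12 : (a * ρa u * (d * ρb u) - b * ρa u * (c * ρb u)) * Dq E F v1 v2 (rv t1) (rv t2) /
      (ρa u * ρb u) = (a * d - b * c) * Dq E F v1 v2 (rv t1) (rv t2) := by
    field_simp
  rw [h12]
  exact ((haa.mul hda).sub (hba.mul hca)).mul (((h8.2 F hF t1).mul (h9.2 F hF t2)).sub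
    ((h8.2 F hF t2).mul (h9.2 F hF t1)))

/-- the two scales give vectors of `Nc` -/
theorem plane_Nc {q : ℕ} {sa sb : Finset ℕ} {ρa ρb : ℕ → ℂ} (ha : GoodS q sa ρa)
    (hb : GoodS q sb ρb)
    {N : Submodule ℂ (ι → ℂ)} {B : Iq q ⊕ Iq q → ι → ℚ}
    (hN : (Np (Ns q sa) (Ns q sb)).comap (mvL B) = N) {u : ℕ} (hua : u ∈ sa) (hub : u ∈ sb)
    {ε : Iq q → ℂ} (hε : IsEps q u ε) {e1 : ι → ℂ}
    {a c : ℂ} (h1 : mv B e1 = a • jl ε + c • jr ε) : e1 ∈ Nc N := by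
  obtain ⟨-, ξa, Ea0, -, hPa0, hGa0, hVa⟩ := ha
  obtain ⟨-, ξb, Eb0, -, hPb0, hGb0, hVb⟩ := hb
  obtain ⟨hρa, hVa⟩ := hVa u hua
  obtain ⟨hρb, hVb⟩ := hVb u hub
  have key : ∀ (M : Submodule ℂ (Iq q → ℂ)) (r : ℂ), r ≠ 0 → r⁻¹ • ε ∈ Nc M → ε ∈ Nc M := by
    intro M r hr h
    have h2 := (Nc M).smul_mem r h
    rwa [smul_smul, mul_inv_cancel₀ hr, one_smul] at h2
  have h3 := key _ _ hρa (hVa ε hε).1
  have h4 := key _ _ hρb (hVb ε hε).1
  rw [mem_Nc, ← hN, Submodule.mem_comap]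
  change mv B (cj e1) ∈ _
  rw [mv_cj, h1]
  rw [mem_Nc] at h3 h4
  refine ⟨?_, ?_⟩
  · have h5 : (fun i => cj (a • jl (ι' := Iq q) ε + c • jr (ι := Iq q) ε) (Sum.inl i)) =
        (starRingEnd ℂ a) • cj ε := by
      funext i
      simp [cj, jl, jr]
    rw [h5]
    exact (Ns q sa).smul_mem _ h3
  · have h5 : (fun i => cj (a • jl (ι' := Iq q) ε + c • jr (ι := Iq q) ε) (Sum.inr i)) =
        (starRingEnd ℂ c) • cj ε := by
      funext i
      simp [cj, jl, jr]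
    rw [h5]
    exact (Ns q sb).smul_mem _ h4

theorem nab_diff {E : ι → ι → ℚ} {F : (ι → ℂ) → ℂ} (hF : Differentiable ℂ F) (e : ι → ℂ) :
    Differentiable ℂ (fun w => Helper49.SH.nab E e F w) := by
  classical
  intro w
  have h1 : AnalyticAt ℂ F w := Pool.Agent.Helper96.SH.analyticOnNhd_of_differentiableOn
    isOpen_univ hF.differentiableOn w (Set.mem_univ _)
  have h2 : DifferentiableAt ℂ (fun w => fderiv ℂ F w e) w :=
    h1.fderiv.differentiableAt.clm_apply (differentiableAt_const _)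
  have h3 : DifferentiableAt ℂ (fun w => Eb E e w) w := by
    unfold Eb
    fun_prop
  exact h2.sub ((h3.const_mul _).mul (hF w))

/-- the determinant is not identically zero -/
theorem exists_Dq_ne {E : ι → ι → ℚ} {N : Submodule ℂ (ι → ℂ)} (hP : Pol E N)
    {F : (ι → ℂ) → ℂ} (hF : AT E N F) (h0 : F ≠ 0) {e1 e2 : ι → ℂ} (he1 : e1 ∈ Nc N)
    (he2 : e2 ∈ Nc N) (hli : ∀ a b : ℂ, a • e1 + b • e2 = 0 → a = 0 ∧ b = 0) :
    ∃ t1 t2 : ι → ℚ, Dq E F e1 e2 (rv t1) (rv t2) ≠ 0 := by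
  have key : ∀ e ∈ Nc N, e ≠ 0 → ∃ t : ι → ℚ, Helper49.SH.nab E e F (rv t) ≠ 0 := by
    intro e he he0
    obtain ⟨w, hw⟩ := Pool.Agent.Helper52.SH.imm hP hF h0 he he0 0
    refine exists_rat (nab_diff hF.diff e) fun h => hw ?_
    rw [zero_mul]
    exact congrFun h w
  have h1 : e1 ≠ 0 := by
    rintro rfl
    exact one_ne_zero (hli 1 0 (by simp)).1
  obtain ⟨t1, ht1⟩ := key e1 he1 h1
  set α := Helper49.SH.nab E e1 F (rv t1) with hα
  set β := Helper49.SH.nab E e2 F (rv t1) with hβ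
  have h2 : (-β) • e1 + α • e2 ≠ 0 := fun h => ht1 (hli _ _ h).2
  obtain ⟨t2, ht2⟩ := key _ ((Nc N).add_mem ((Nc N).smul_mem _ he1) ((Nc N).smul_mem _ he2)) h2
  refine ⟨t1, t2, ?_⟩
  rw [nab_lin] at ht2
  rw [Dq, ← hα, ← hβ]
  intro h
  apply ht2
  linear_combination h

/-! ### the unit vectors of the embeddings -/

theorem card_UU (q : ℕ) (h3 : 3 ≤ q) : (UU q).card = q.totient := by
  rw [UU, Nat.totient_eq_card_coprime]
  congr 1
  ext u
  rw [mem_filter, mem_filter, mem_Icc, mem_range]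
  constructor
  · rintro ⟨⟨h1, h2⟩, h4⟩
    exact ⟨by omega, h4.symm⟩
  · rintro ⟨h1, h2⟩
    refine ⟨⟨?_, by omega⟩, h2.symm⟩
    rcases Nat.eq_zero_or_pos u with h | h
    · subst h
      rw [Nat.coprime_zero_right] at h2
      omega
    · exact h

theorem exists_eps {q : ℕ} (h3 : 3 ≤ q) {u : ℕ} (hu : u ∈ UU q) : ∃ ε, IsEps q u ε := by
  have hprim := Pool.Agent.Helper59.LT.zt_prim q (by omega)
  have hinj : Set.InjOn (fun v => zt q ^ v) (UU q : Set ℕ) := by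
    intro v hv w hw h
    have hv' := mem_UU.1 (Finset.mem_coe.1 hv)
    have hw' := mem_UU.1 (Finset.mem_coe.1 hw)
    exact hprim.pow_inj (by omega) (by omega) h
  set L : Polynomial ℂ := Lagrange.basis (UU q) (fun v => zt q ^ v) u with hL
  have hdeg : L.natDegree < q.totient := by
    have h1 := Lagrange.degree_basis hinj hu
    have hL0 : L ≠ 0 := Lagrange.basis_ne_zero hinj hu
    rw [← hL, Polynomial.degree_eq_natDegree hL0] at h1
    have h2 : L.natDegree = (UU q).card - 1 := by exact_mod_cast h1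
    rw [h2, card_UU q h3]
    have : 0 < q.totient := Nat.totient_pos.2 (by omega)
    omega
  refine ⟨fun i => L.coeff i, fun v hv => ?_⟩
  have h1 : Helper49.SH.em q v (fun i : Iq q => L.coeff i) = L.eval (zt q ^ v) := by
    rw [Polynomial.eval_eq_sum_range' hdeg, Helper49.SH.em, Finset.sum_range]
    exact Finset.sum_congr rfl fun i _ => by rw [← pow_mul]
  rw [h1, hL]
  split_ifs with h
  · subst h
    exact Lagrange.eval_basis_self hinj hv
  · exact Lagrange.eval_basis_of_ne (Ne.symm h) hv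

/-! ### theta functions in the two languages -/

theorem AT_of {E : Matrix ι ι ℤ} {ep : (ι → ℤ) → ℂ} {N : Submodule ℂ (ι → ℂ)}
    {h : (ι → ℂ) → ℂ} (hd : Differentiable ℂ h) (hq : QPer E ep h) (hn : NPer E N h)
    (hep2 : ∀ l l' : ι → ℤ, (∀ i, (2 : ℤ) ∣ l i - l' i) → ep l = ep l') (hep0 : ep 0 = 1) :
    AT (EQ E) N h where
  diff := hd
  hol := by
    intro e he w
    have h1 := nab_of_NPer hd hn he w
    rw [Eb_EQ]
    rw [nab] at h1
    linear_combination h1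
  per := by
    refine ⟨2, by norm_num, fun l w => ?_⟩
    have h1 := hq (fun i => 2 * l i) w
    have h2 : Pool.Agent.Helper96.SH.cI (fun i => 2 * l i) = ((2 : ℕ) : ℂ) • zv l := by
      funext i
      simp [Pool.Agent.Helper96.SH.cI, zv]
    rw [h2, hep2 _ 0 (fun i => by simp), hep0, one_mul, En_smul_left] at h1
    rw [h1, Eb_EQ]
    congr 2
    ring

theorem proj_of {μ : Type} [Fintype μ] [DecidableEq μ] {Z : Matrix μ μ ℂ}
    (hZ : Pool.Agent.Helper96.SH.Sieg Z) {F : (μ ⊕ μ → ℂ) → ℂ}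
    (hF : AlgT (EQ (Pool.Agent.Helper96.SH.E0 μ)) (Pool.Agent.Helper96.SH.NZ Z) F) (h0 : F ≠ 0) :
    ∃ c : ℂ, c ≠ 0 ∧ ∀ t : μ ⊕ μ → ℚ, IsAlgebraic ℚ (c * Pool.Agent.Helper96.SH.GF Z (cQ t)) := by
  obtain ⟨k, hk, hper⟩ := hF.per
  have hnab : ∀ e ∈ Pool.Agent.Helper96.SH.NZ Z, ∀ w,
      nab (Pool.Agent.Helper96.SH.E0 μ) F e w = 0 := by
    intro e he w
    rw [nab, hF.hol e he, Eb_EQ]
    ring
  refine Pool.Agent.Helper96.SH.projector hZ hF.diff (h := F) (K := k) ?_ (by omega) ?_ ?_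
    (fun t => hF.val t)
  · intro e he w
    have h1 := nab_int Pool.Agent.Helper96.SH.E0_alt hF.diff (hnab e he) 1 w
    rwa [one_smul, one_mul] at h1
  · intro l w
    have h1 := hper l w
    rw [zv_cI] at h1
    rw [h1, Eb_EQ]
    congr 2
    ring
  · by_contra hcon
    push Not at hcon
    exact h0 (funext hcon)

/-! ### K_fam -/

theorem K_fam_of (hX : XMain) {q : ℕ} {s1 s2 t1 t2 : Finset ℕ} {ρ1 ρ2 : ℕ → ℂ}
    (h1 : GoodS q s1 ρ1) (h2 : GoodS q s2 ρ2) (ht1 : HS q t1) (ht2 : HS q t2) (hne : s1 ≠ s2)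
    (hcap : (s1 ∩ s2).Nonempty) (hi : s1 ∩ s2 = t1 ∩ t2) (hu : s1 ∪ s2 = t1 ∪ t2) :
    ∃ ρ3 ρ4, GoodS q t1 ρ3 ∧ GoodS q t2 ρ4 ∧
      ∀ u ∈ s1 ∩ s2, IsAlgebraic ℚ (ρ1 u * ρ2 u / (ρ3 u * ρ4 u)) := by
  obtain ⟨hs1, ξ1, E1, hK1, hP1, hG1, hV1⟩ := id h1
  obtain ⟨hs2, ξ2, E2, hK2, hP2, hG2, hV2⟩ := id h2
  obtain ⟨D⟩ := hX q s1 s2 t1 t2 ξ1 ξ2 E1 E2 hs1 hs2 ht1 ht2 hK1 hK2 hP1 hP2 hne hcap hi hu
  obtain ⟨μ, fμ, dμ, ν, fν, X, Z, op, conn, hol, sieg, S, S', inv, form, x1, x1m, g, gX, gd, g1,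
    gi, R, R', RR, RE, RN, κ, fr, frd, frN, frI, cpt, O, OX, Od, Og, Oa, xa⟩ := D
  have h3 : 3 ≤ q := hs1.three
  set Ez : Matrix (μ ⊕ μ) (μ ⊕ μ) ℤ := Pool.Agent.Helper96.SH.E0 μ with hEz
  have hT := Pool.Agent.Helper96.SH.tfam_FF op conn hol sieg
  have hPs := Pol_dsum hP1 hP2
  have hGs := Good_prod hG1 hG2
  have hpbS : pb (dsum E1 E2) S = EQ Ez := by
    refine Eb_inj fun w w' => ?_
    rw [Eb_pb, form, Eb_EQ]
  -- the theta function at a point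
  have hGF : ∀ x ∈ X, AT (EQ Ez) (Pool.Agent.Helper96.SH.NZ (Z x))
      (fun w => Pool.Agent.Helper96.SH.GF (Z x) w) := fun x hx =>
    AT_of (hT.entire x hx) (hT.qp x hx) (hT.np x hx) hT.ep2 ((hT.qp x hx).zero (hT.ne x hx))
  have hcF : ∀ x ∈ X, ∀ c : ℂ, (∀ t : μ ⊕ μ → ℚ,
      IsAlgebraic ℚ (c * Pool.Agent.Helper96.SH.GF (Z x) (cQ t))) →
      AlgT (EQ Ez) (Pool.Agent.Helper96.SH.NZ (Z x))
        (fun w => c * Pool.Agent.Helper96.SH.GF (Z x) w) := by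
    intro x hx c hc
    refine ⟨⟨(hGF x hx).diff.const_mul c, fun e he w => ?_, ?_⟩, hc⟩
    · have h4 : HasFDerivAt (fun w => c * Pool.Agent.Helper96.SH.GF (Z x) w) _ w :=
        ((hGF x hx).diff w).hasFDerivAt.const_mul c
      rw [h4.fderiv, _root_.smul_apply, smul_eq_mul, (hGF x hx).hol e he w]
      ring
    · obtain ⟨k, hk, hper⟩ := (hGF x hx).per
      refine ⟨k, hk, fun l w => ?_⟩
      rw [hper l w]
      ring
  -- the orbit
  have horb : ∀ x ∈ O, ∃ c : ℂ, c ≠ 0 ∧ AlgT (EQ Ez) (Pool.Agent.Helper96.SH.NZ (Z x))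
      (fun w => c * Pool.Agent.Helper96.SH.GF (Z x) w) ∧
      ∀ u ∈ s1 ∩ s2, ∀ ε, IsEps q u ε → ∀ t t' : μ ⊕ μ → ℚ,
        IsAlgebraic ℚ (Dq (EQ Ez) (fun w => c * Pool.Agent.Helper96.SH.GF (Z x) w)
          (mv S' (jl ε)) (mv S' (jr ε)) (rv t) (rv t') / (ρ1 u * ρ2 u)) := by
    intro x hx
    obtain ⟨A, A', hA, hpbA, hact, hNA⟩ := Oa x hx
    have hB : Inv2 (mm A S) (mm S' A') := by
      refine ⟨fun w => ?_, fun w => ?_⟩
      · rw [mv_mm, mv_mm, inv.1, hA.1]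
      · rw [mv_mm, mv_mm, hA.2, inv.2]
    have hpb : pb (dsum E1 E2) (mm A S) = EQ Ez := by
      refine Eb_inj fun w w' => ?_
      rw [Eb_pb, mv_mm, mv_mm, ← Eb_pb _ A, hpbA, form, Eb_EQ]
    have hN : (Np (Ns q s1) (Ns q s2)).comap (mvL (mm A S)) =
        Pool.Agent.Helper96.SH.NZ (Z x) := by
      ext w
      rw [Submodule.mem_comap, hNA w]
      change mv (mm A S) w ∈ _ ↔ _
      rw [mv_mm]
    have hiso := Pool.Agent.Helper14.SH.E_iso hPs hGs (mm A S) (mm S' A') hB.1 hB.2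
    rw [hpb, hN] at hiso
    obtain ⟨F, hF, hF0⟩ := hiso.2.1
    obtain ⟨c, hc0, hc⟩ := proj_of (sieg x (OX hx)) hF hF0
    have hFc := hcF x (OX hx) c hc
    refine ⟨c, hc0, hFc, fun u hu ε hε t t' => ?_⟩
    rw [mem_inter] at hu
    obtain ⟨a, b, c', d, ha, hb, hc', hd, -, hjl, hjr⟩ := hact u (HS_mem hs1 ⟨u, hu.1⟩) ε hε
    refine plane_lemma h1 h2 hP1 hP2 hG1 hG2 hB hpb hN hu.1 hu.2 hε hFc ha hb hc' hd ?_ ?_ t t'
    · rw [mv_mm, inv.1, hjl]
    · rw [mv_mm, inv.1, hjr]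
  -- the family theorem at `x1`
  have hfam : ∀ u ∈ s1 ∩ s2, ∀ ε, IsEps q u ε →
      (∀ t a : μ ⊕ μ → ℚ, Pool.Agent.Helper96.SH.GF (Z x1) (cQ a) ≠ 0 → IsAlgebraic ℚ
        (Pool.Agent.Helper96.SH.GF (Z x1) (cQ t) / Pool.Agent.Helper96.SH.GF (Z x1) (cQ a))) ∧
      ∀ t t' a : μ ⊕ μ → ℚ, Pool.Agent.Helper96.SH.GF (Z x1) (cQ a) ≠ 0 →
        IsAlgebraic ℚ (Dt Ez (fun w => Pool.Agent.Helper96.SH.GF (Z x1) w) (mv S' (jl ε))
          (mv S' (jr ε)) (cQ t) (cQ t') / (ρ1 u * ρ2 u *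
            Pool.Agent.Helper96.SH.GF (Z x1) (cQ a) ^ 2)) := by
    intro u hu ε hε
    refine family hT x1 x1m g gX gd g1 gi R R' RR RE RN fr frd frN frI (mv S' (jl ε))
      (mv S' (jr ε)) (cpt u hu ε hε) O Od Og ?_ (ρ1 u * ρ2 u) ?_
    · intro x hx t a ha
      obtain ⟨c, hc0, hFc, -⟩ := horb x hx
      have h4 := (hFc.val t).mul (hFc.val a).inv
      have h5 : c * Pool.Agent.Helper96.SH.GF (Z x) (rv t) *
          (c * Pool.Agent.Helper96.SH.GF (Z x) (rv a))⁻¹ =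
          Pool.Agent.Helper96.SH.GF (Z x) (cQ t) / Pool.Agent.Helper96.SH.GF (Z x) (cQ a) := by
        rw [rv_cQ, rv_cQ]
        field_simp
      rwa [h5] at h4
    · intro x hx t t' a ha
      obtain ⟨c, hc0, hFc, hpl⟩ := horb x hx
      have h4 := (hpl u hu ε hε t t').mul ((hFc.val a).inv.pow 2)
      have h5 : Dq (EQ Ez) (fun w => c * Pool.Agent.Helper96.SH.GF (Z x) w)
          (mv S' (jl ε)) (mv S' (jr ε)) (rv t) (rv t') / (ρ1 u * ρ2 u) *
          (c * Pool.Agent.Helper96.SH.GF (Z x) (rv a))⁻¹ ^ 2 =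
          Dt Ez (fun w => Pool.Agent.Helper96.SH.GF (Z x) w) (mv S' (jl ε)) (mv S' (jr ε))
            (cQ t) (cQ t') / (ρ1 u * ρ2 u * Pool.Agent.Helper96.SH.GF (Z x) (cQ a) ^ 2) := by
        rw [Dq_smul (hGF x (OX hx)).diff, Dq_EQ, rv_cQ, rv_cQ, rv_cQ]
        field_simp
      rwa [h5] at h4
  obtain ⟨a0, ha0⟩ : ∃ a : μ ⊕ μ → ℚ, Pool.Agent.Helper96.SH.GF (Z x1) (cQ a) ≠ 0 := by
    refine exists_rat (hT.entire x1 x1m) fun h => ?_
    obtain ⟨w, hw⟩ := hT.ne x1 x1m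
    exact hw (congrFun h w)
  obtain ⟨u0, hu0⟩ := hcap
  obtain ⟨ε0, hε0⟩ := exists_eps h3 (HS_mem hs1 ⟨u0, (mem_inter.1 hu0).1⟩)
  have hF1 := hcF x1 x1m (Pool.Agent.Helper96.SH.GF (Z x1) (cQ a0))⁻¹ (fun t => by
    have := (hfam u0 hu0 ε0 hε0).1 t a0 ha0
    rwa [div_eq_inv_mul] at this)
  set F1 : (μ ⊕ μ → ℂ) → ℂ := fun w => (Pool.Agent.Helper96.SH.GF (Z x1) (cQ a0))⁻¹ *
    Pool.Agent.Helper96.SH.GF (Z x1) w with hF1d
  have hF10 : F1 ≠ 0 := by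
    intro h
    have h4 := congrFun h (cQ a0)
    rw [hF1d] at h4
    simp only [Pi.zero_apply] at h4
    rw [inv_mul_cancel₀ ha0] at h4
    exact one_ne_zero h4
  obtain ⟨M, M', ξ3, ξ4, E3, E4, hM, hact, hK3, hK4, hP3, hP4, hpbM, hNM⟩ := xa
  have hC : Inv2 (mm S' M) (mm M' S) := by
    refine ⟨fun w => ?_, fun w => ?_⟩
    · rw [mv_mm, mv_mm, hM.1, inv.2]
    · rw [mv_mm, mv_mm, inv.1, hM.2]
  have hpbC : pb (EQ Ez) (mm S' M) = dsum E3 E4 := by
    refine Eb_inj fun w w' => ?_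
    rw [Eb_pb, Eb_EQ, ← form, mv_mm, mv_mm, inv.1, inv.1, ← hpbM, Eb_pb]
  have hNC : (Pool.Agent.Helper96.SH.NZ (Z x1)).comap (mvL (mm S' M)) =
      Np (Ns q t1) (Ns q t2) := by
    ext w
    rw [Submodule.mem_comap, hNM w]
    change mv (mm S' M) w ∈ _ ↔ _
    rw [mv_mm]
  have hG34 : Good (dsum E3 E4) (Np (Ns q t1) (Ns q t2)) := by
    have h4 := Pool.Agent.Helper52.SH.AlgT_pull hF1 (mm S' M)
    rw [hpbC, hNC] at h4
    refine ⟨_, h4, fun h => hF10 (funext fun w => ?_)⟩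
    have h5 := congrFun h (mv (mm M' S) w)
    simp only [hC.1] at h5
    exact h5
  have hG3 := Good_left hG34
  have hG4 := Good_right hG34
  obtain ⟨ρ3, hρ3⟩ := Pool.Agent.Helper2.SH.K_scale ht1 hK3 hP3 hG3
  obtain ⟨ρ4, hρ4⟩ := Pool.Agent.Helper2.SH.K_scale ht2 hK4 hP4 hG4
  refine ⟨ρ3, ρ4, hρ3, hρ4, fun u hu' => ?_⟩
  obtain ⟨ε, hε⟩ := exists_eps h3 (HS_mem hs1 ⟨u, (mem_inter.1 hu').1⟩)
  have hut : u ∈ t1 ∩ t2 := hi ▸ hu'
  rw [mem_inter] at hut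
  -- the inverse of `M` on the plane
  obtain ⟨a, b, c, d, ha, hb, hc, hd, hdet, hjl, hjr⟩ :=
    hact u (HS_mem hs1 ⟨u, (mem_inter.1 hu').1⟩) ε hε
  have hinvM : Inv2 M' M := ⟨hM.2, hM.1⟩
  have hCi : Inv2 (mm M' S) (mm S' M) := ⟨hC.2, hC.1⟩
  have hpbCi : pb (dsum E3 E4) (mm M' S) = EQ Ez := by
    refine Eb_inj fun w w' => ?_
    rw [Eb_pb, ← hpbC, Eb_pb, hC.1, hC.1]
  have hNCi : (Np (Ns q t1) (Ns q t2)).comap (mvL (mm M' S)) =
      Pool.Agent.Helper96.SH.NZ (Z x1) := by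
    ext w
    rw [Submodule.mem_comap, ← hNC, Submodule.mem_comap]
    change mv (mm S' M) (mv (mm M' S) w) ∈ _ ↔ _
    rw [hC.1]
  have hdi : IsAlgebraic ℚ (a * d - b * c)⁻¹ := ((ha.mul hd).sub (hb.mul hc)).inv
  have e1 : mv M' (jl ε) = ((a * d - b * c)⁻¹ * d) • jl ε + (-((a * d - b * c)⁻¹ * c)) • jr ε := by
    have h4 : mv M (((a * d - b * c)⁻¹ * d) • jl ε + (-((a * d - b * c)⁻¹ * c)) • jr ε) =
        jl ε := by
      rw [mv_add', mv_smul', mv_smul', hjl, hjr]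
      have h5 : ((a * d - b * c)⁻¹ * d) • (a • jl (ι' := Iq q) ε + c • jr (ι := Iq q) ε) +
          (-((a * d - b * c)⁻¹ * c)) • (b • jl (ι' := Iq q) ε + d • jr (ι := Iq q) ε) =
          ((a * d - b * c)⁻¹ * (a * d - b * c)) • jl (ι' := Iq q) ε := by
        module
      rw [h5, inv_mul_cancel₀ hdet, one_smul]
    rw [← h4, hM.2]
    rw [h4]
  have e2 : mv M' (jr ε) = (-((a * d - b * c)⁻¹ * b)) • jl ε + ((a * d - b * c)⁻¹ * a) • jr ε := by
    have h4 : mv M ((-((a * d - b * c)⁻¹ * b)) • jl ε + ((a * d - b * c)⁻¹ * a) • jr ε) =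
        jr ε := by
      rw [mv_add', mv_smul', mv_smul', hjl, hjr]
      have h5 : (-((a * d - b * c)⁻¹ * b)) • (a • jl (ι' := Iq q) ε + c • jr (ι := Iq q) ε) +
          ((a * d - b * c)⁻¹ * a) • (b • jl (ι' := Iq q) ε + d • jr (ι := Iq q) ε) =
          ((a * d - b * c)⁻¹ * (a * d - b * c)) • jr (ι := Iq q) ε := by
        module
      rw [h5, inv_mul_cancel₀ hdet, one_smul]
    rw [← h4, hM.2]
    rw [h4]
  have he1 : mv (mm M' S) (mv S' (jl ε)) =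
      ((a * d - b * c)⁻¹ * d) • jl ε + (-((a * d - b * c)⁻¹ * c)) • jr ε := by
    rw [mv_mm, inv.1, e1]
  have he2 : mv (mm M' S) (mv S' (jr ε)) =
      (-((a * d - b * c)⁻¹ * b)) • jl ε + ((a * d - b * c)⁻¹ * a) • jr ε := by
    rw [mv_mm, inv.1, e2]
  have hli : ∀ p r : ℂ, p • mv S' (jl ε) + r • mv S' (jr ε) = 0 → p = 0 ∧ r = 0 := by
    intro p r hpr
    have h4 := congrArg (mv S) hpr
    rw [mv_add', mv_smul', mv_smul', inv.1, inv.1] at h4
    have h5 : mv S (0 : μ ⊕ μ → ℂ) = 0 := (mvL S).map_zero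
    rw [h5] at h4
    have h6 : Helper49.SH.em q u ε = 1 := by
      have := hε u (HS_mem hs1 ⟨u, (mem_inter.1 hu').1⟩)
      rwa [if_pos rfl] at this
    have h7 : ε ≠ 0 := by
      rintro rfl
      simp [Helper49.SH.em] at h6
    obtain ⟨i, hi0⟩ := Function.ne_iff.1 h7
    have h8 := congrFun h4 (Sum.inl i)
    have h9 := congrFun h4 (Sum.inr i)
    simp only [Pi.add_apply, Pi.smul_apply, jl, jr, Sum.elim_inl, Sum.elim_inr, Pi.zero_apply,
      smul_eq_mul, mul_zero, add_zero, zero_add, mul_eq_zero] at h8 h9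
    exact ⟨h8.resolve_right hi0, h9.resolve_right hi0⟩
  have hPz : Pol (EQ Ez) (Pool.Agent.Helper96.SH.NZ (Z x1)) := by
    have h4 := Pol_iso (Pol_dsum hP3 hP4) hCi
    rwa [hpbCi, hNCi] at h4
  obtain ⟨t, t', hD⟩ := exists_Dq_ne hPz hF1.toAT hF10
    (plane_Nc hρ3 hρ4 hNCi hut.1 hut.2 hε he1) (plane_Nc hρ3 hρ4 hNCi hut.1 hut.2 hε he2) hli
  have h4 := plane_lemma hρ3 hρ4 hP3 hP4 hG3 hG4 hCi hpbCi hNCi hut.1 hut.2 hε hF1
    (hdi.mul hd) (hdi.mul hb).neg (hdi.mul hc).neg (hdi.mul ha) he1 he2 t t'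
  have h5 := (hfam u hu' ε hε).2 t t' a0 ha0
  have h6 : Dt Ez (fun w => Pool.Agent.Helper96.SH.GF (Z x1) w) (mv S' (jl ε))
      (mv S' (jr ε)) (cQ t) (cQ t') / (ρ1 u * ρ2 u *
        Pool.Agent.Helper96.SH.GF (Z x1) (cQ a0) ^ 2) =
      Dq (EQ Ez) F1 (mv S' (jl ε)) (mv S' (jr ε)) (rv t) (rv t') / (ρ1 u * ρ2 u) := by
    rw [hF1d, Dq_smul (hGF x1 x1m).diff, Dq_EQ, rv_cQ, rv_cQ]
    field_simp
  rw [h6] at h5
  have hρ1 := (hV1 u (mem_inter.1 hu').1).1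
  have hρ2 := (hV2 u (mem_inter.1 hu').2).1
  obtain ⟨_, _, _, _, _, _, hV3⟩ := hρ3
  obtain ⟨_, _, _, _, _, _, hV4⟩ := hρ4
  have hρ3' := (hV3 u hut.1).1
  have hρ4' := (hV4 u hut.2).1
  have h7 := h4.mul h5.inv
  have h8 : Dq (EQ Ez) F1 (mv S' (jl ε)) (mv S' (jr ε)) (rv t) (rv t') / (ρ3 u * ρ4 u) *
      (Dq (EQ Ez) F1 (mv S' (jl ε)) (mv S' (jr ε)) (rv t) (rv t') / (ρ1 u * ρ2 u))⁻¹ =
      ρ1 u * ρ2 u / (ρ3 u * ρ4 u) := by
    field_simp
  rwa [h8] at h7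

/-- **The family theorem for types** (no hypothesis left). -/
theorem K_fam {q : ℕ} {s1 s2 t1 t2 : Finset ℕ} {ρ1 ρ2 : ℕ → ℂ} (h1 : GoodS q s1 ρ1)
    (h2 : GoodS q s2 ρ2) (ht1 : HS q t1) (ht2 : HS q t2) (hne : s1 ≠ s2)
    (hcap : (s1 ∩ s2).Nonempty) (hi : s1 ∩ s2 = t1 ∩ t2) (hu : s1 ∪ s2 = t1 ∪ t2) :
    ∃ ρ3 ρ4, GoodS q t1 ρ3 ∧ GoodS q t2 ρ4 ∧
      ∀ u ∈ s1 ∩ s2, IsAlgebraic ℚ (ρ1 u * ρ2 u / (ρ3 u * ρ4 u)) :=
  K_fam_of Pool.Agent.Helper94.SX.xmain h1 h2 ht1 ht2 hne hcap hi hu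

end

end Pool.Agent.Helper16.SH
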