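import Pool.Agent.Helper49.SH.Df
import Pool.Agent.Helper16.SH.Fb
import Pool.Agent.Helper96.SH.Ce

/-!
PROJECT ALLQ (MP_274814_nt), target K_fam: what the geometric part (block X) has to deliver.
`W = K^2` has index set `Iq q ⊕ Iq q`, the Siegel coordinates have index set `μ ⊕ μ`.
-/

set_option autoImplicit false

namespace Pool.Agent.Helper16.SH

open Finset Complex Pool.Agent.Helper49.SH

noncomputable section

/-- the standard symplectic form with rational entries -/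
def EQ {ι : Type} (E : Matrix ι ι ℤ) : ι → ι → ℚ := fun i j => (E i j : ℚ)

/-- rational isomorphism of polarised tori: `M` maps `(E', N')` onto `(E, N)`, `M'` is its inverse -/
structure RIso {ι ι' : Type} [Fintype ι] [Fintype ι'] (E : ι → ι → ℚ) (N : Submodule ℂ (ι → ℂ))
    (E' : ι' → ι' → ℚ) (N' : Submodule ℂ (ι' → ℂ)) (M : ι → ι' → ℚ) (M' : ι' → ι → ℚ) : Prop where
  inv1 : ∀ w, mv M (mv M' w) = w
  inv2 : ∀ w, mv M' (mv M w) = w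
  form : ∀ w w', Eb E (mv M w) (mv M w') = Eb E' w w'
  map : ∀ e, mv M e ∈ N ↔ e ∈ N'

/-- the two rational maps `S`, `M` differ on the plane number `u` by an algebraic matrix of
determinant `1` (`one = true`) or `≠ 0` -/
def Plane {ι : Type} [Fintype ι] (q u : ℕ) (S M : ι → (Iq q ⊕ Iq q) → ℚ) (one : Prop) : Prop :=
  ∀ ε, IsEps q u ε → ∃ a b c d : ℂ, IsAlgebraic ℚ a ∧ IsAlgebraic ℚ b ∧ IsAlgebraic ℚ c ∧
    IsAlgebraic ℚ d ∧ a * d - b * c ≠ 0 ∧ (one → a * d - b * c = 1) ∧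
    mv S (Sum.elim ε 0) = a • mv M (Sum.elim ε 0) + b • mv M (Sum.elim 0 ε) ∧
    mv S (Sum.elim 0 ε) = c • mv M (Sum.elim ε 0) + d • mv M (Sum.elim 0 ε)

/-- The geometric data of the family which joins `(s1, s2)` and `(t1, t2)`. -/
structure XD (q : ℕ) (s1 s2 t1 t2 : Finset ℕ) (E1 E2 : Iq q → Iq q → ℚ) where
  ν : Type
  fν : Fintype ν
  μ : Type
  fμ : Fintype μ
  dμ : DecidableEq μ
  X : Set (ν → ℂ)
  op : IsOpen X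
  conn : IsPreconnected X
  Z : (ν → ℂ) → Matrix μ μ ℂ
  hol : ∀ i j, DifferentiableOn ℂ (fun x => Z x i j) X
  sieg : ∀ x ∈ X, Pool.Agent.Helper96.SH.Sieg (Z x)
  /-- coordinates of `K^2` in the symplectic basis -/
  S : (μ ⊕ μ) → (Iq q ⊕ Iq q) → ℚ
  cpt : ∀ u ∈ s1 ∩ s2, ∀ ε, IsEps q u ε → Cpt (Pool.Agent.Helper96.SH.E0 μ) X
    (fun x => Pool.Agent.Helper96.SH.NZ (Z x)) (mv S (Sum.elim ε 0)) (mv S (Sum.elim 0 ε))
  x1 : ν → ℂ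
  hx1 : x1 ∈ X
  g : (ν → ℂ) → (ν → ℂ)
  hg : Set.MapsTo g X X
  hgd : DifferentiableOn ℂ g X
  hg1 : g x1 = x1
  hg' : ∀ v, fderiv ℂ g x1 v = v → v = 0
  R : Matrix (μ ⊕ μ) (μ ⊕ μ) ℚ
  R' : Matrix (μ ⊕ μ) (μ ⊕ μ) ℚ
  hR : R * R' = 1
  hRE : ∀ w w', En (Pool.Agent.Helper96.SH.E0 μ) (mQ R w) (mQ R w') =
    En (Pool.Agent.Helper96.SH.E0 μ) w w'
  hRN : ∀ x ∈ X, ∀ e, e ∈ Pool.Agent.Helper96.SH.NZ (Z x) ↔
    mQ R e ∈ Pool.Agent.Helper96.SH.NZ (Z (g x))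
  κ : Type
  fr : κ → (ν → ℂ) → (μ ⊕ μ → ℂ)
  hfr : ∀ k, DifferentiableAt ℂ (fr k) x1
  hfrN : ∀ k, ∀ x ∈ X, fr k x ∈ Pool.Agent.Helper96.SH.NZ (Z x)
  himm : ∀ v, (∀ k, ∀ u ∈ Pool.Agent.Helper96.SH.NZ (Z x1),
    En (Pool.Agent.Helper96.SH.E0 μ) u (fderiv ℂ (fr k) x1 v) = 0) → v = 0
  /-- the orbit of the first point -/
  O : Set (ν → ℂ)
  hOX : O ⊆ X
  hO : X ⊆ closure O
  hOg : Set.MapsTo g O O
  orb : ∀ x ∈ O, ∃ M M', RIso (EQ (Pool.Agent.Helper96.SH.E0 μ))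
    (Pool.Agent.Helper96.SH.NZ (Z x)) (dsum E1 E2) (Np (Ns q s1) (Ns q s2)) M M' ∧
    ∀ u ∈ s1 ∩ s2, Plane q u S M True
  /-- the second point -/
  ξ3 : Polynomial ℚ
  ξ4 : Polynomial ℚ
  E3 : Iq q → Iq q → ℚ
  E4 : Iq q → Iq q → ℚ
  kf3 : KForm q ξ3 E3
  kf4 : KForm q ξ4 E4
  pol3 : Pol E3 (Ns q t1)
  pol4 : Pol E4 (Ns q t2)
  pt : ∃ M M', RIso (EQ (Pool.Agent.Helper96.SH.E0 μ))
    (Pool.Agent.Helper96.SH.NZ (Z x1)) (dsum E3 E4) (Np (Ns q t1) (Ns q t2)) M M' ∧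
    ∀ u ∈ s1 ∩ s2, Plane q u S M False

end

end Pool.Agent.Helper16.SH
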